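import Pool.Agent.Helper86.TH.Basic3

/-! # Homogeneity and the eigenbasis -/

set_option linter.unusedSectionVars false

namespace TH

open MvPolynomial Finset

section
variable {K : Type*} [Field K] [CharZero K]

theorem WH_iff_mem (n : ℕ) (F : Sy K) :
    WH n F ↔ F ∈ weightedHomogeneousSubmodule K (fun j : ℕ => j + 1) n := Iff.rfl

theorem WH_zero (n : ℕ) : WH n (0 : Sy K) :=
  (WH_iff_mem n 0).2 (Submodule.zero_mem _)

theorem WH_add {n : ℕ} {F G : Sy K} (hF : WH n F) (hG : WH n G) : WH n (F + G) :=
  Submodule.add_mem (weightedHomogeneousSubmodule K (fun j : ℕ => j + 1) n) hF hG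

theorem WH_sub {n : ℕ} {F G : Sy K} (hF : WH n F) (hG : WH n G) : WH n (F - G) :=
  Submodule.sub_mem (weightedHomogeneousSubmodule K (fun j : ℕ => j + 1) n) hF hG

theorem WH_smul' {n : ℕ} (a : K) {F : Sy K} (hF : WH n F) : WH n (a • F) :=
  Submodule.smul_mem (weightedHomogeneousSubmodule K (fun j : ℕ => j + 1) n) a hF

theorem WH_sum' {ι : Type*} {s : Finset ι} {n : ℕ} {F : ι → Sy K} (h : ∀ i ∈ s, WH n (F i)) :
    WH n (∑ i ∈ s, F i) :=
  Submodule.sum_mem (weightedHomogeneousSubmodule K (fun j : ℕ => j + 1) n) h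

theorem WH_mul {m n : ℕ} {F G : Sy K} (hF : WH m F) (hG : WH n G) : WH (m + n) (F * G) :=
  IsWeightedHomogeneous.mul hF hG

theorem WH_one : WH 0 (1 : Sy K) := isWeightedHomogeneous_one _ _

theorem WH_X (j : ℕ) : WH (j + 1) (X j : Sy K) := isWeightedHomogeneous_X K _ j

theorem WH_C (a : K) : WH 0 (C a : Sy K) := isWeightedHomogeneous_C _ a

/-- homogeneous of two different degrees -/
theorem WH_unique {m n : ℕ} {F : Sy K} (hm : WH m F) (hn : WH n F) (hne : m ≠ n) : F = 0 := by
  by_contra h
  exact hne (IsWeightedHomogeneous.inj_right h hm hn)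

/-- `h_n` of an alphabet of multiples of the variables is homogeneous -/
theorem WH_hc (α : ℕ → K) (n : ℕ) : WH n (hc (fun j => (C (α j) * X j : Sy K)) n) := by
  induction n using Nat.strong_induction_on with
  | _ n ih =>
    cases n with
    | zero => rw [hc_zero]; exact WH_one
    | succ n =>
      rw [hc_succ']
      have h1 : WH (n + 1) (∑ i ∈ range (n + 1),
          (C (α i) * X i : Sy K) * hc (fun j => (C (α j) * X j : Sy K)) (n - i)) := by
        refine WH_sum' fun i hi => ?_
        rw [mem_range] at hi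
        have h2 := WH_mul (WH_mul (WH_C (α i)) (WH_X i)) (ih (n - i) (by omega))
        rw [show 0 + (i + 1) + (n - i) = n + 1 by omega] at h2
        exact h2
      have h3 : (((n : ℚ) + 1)⁻¹ • (∑ i ∈ range (n + 1),
          (C (α i) * X i : Sy K) * hc (fun j => (C (α j) * X j : Sy K)) (n - i)))
          = (((n : K) + 1)⁻¹) • (∑ i ∈ range (n + 1),
          (C (α i) * X i : Sy K) * hc (fun j => (C (α j) * X j : Sy K)) (n - i)) := by
        rw [Algebra.smul_def, Algebra.smul_def]
        congr 1
        rw [IsScalarTower.algebraMap_apply ℚ K (Sy K)]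
        simp
      rw [h3]
      exact WH_smul' _ h1

theorem WH_eh (n : ℕ) : WH n (eh K n) := by
  have h := WH_hc (fun _ => (-1 : K)) n
  have h1 : (fun j => (C (-1 : K) * X j : Sy K)) = fun j => -(X j : Sy K) := by
    funext j; simp
  rw [h1] at h
  exact h

theorem WH_hh (n : ℕ) : WH n (hh K n) := by
  have h := WH_hc (fun _ => (1 : K)) n
  have h1 : (fun j => (C (1 : K) * X j : Sy K)) = fun j => (X j : Sy K) := by
    funext j; simp
  rw [h1] at h
  exact h

theorem WH_ee (n : ℕ) : WH n (ee K n) := by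
  have h := WH_hc (fun j => ((-1) ^ j : K)) n
  have h1 : (fun j => (C ((-1 : K) ^ j) * X j : Sy K)) = fun j => (-1) ^ j * (X j : Sy K) := by
    funext j; simp
  rw [h1] at h
  exact h

theorem WH_est (q t : K) (n : ℕ) : WH n (est q t n) := by
  have h := WH_hc (fun j => ((-1) ^ j * (Mj q t j)⁻¹ : K)) n
  have h1 : (fun j => (C ((-1 : K) ^ j * (Mj q t j)⁻¹) * X j : Sy K))
      = fun j => (-1) ^ j * (C (Mj q t j)⁻¹ * (X j : Sy K)) := by
    funext j; simp [mul_assoc]
  rw [h1] at h
  exact h

theorem WH_hst (q t : K) (n : ℕ) : WH n (hst q t n) := WH_hc (fun j => (Mj q t j)⁻¹) n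

/-- homogeneous elements have homogeneous coordinates -/
theorem IsE.repr_zero {q t : K} {b : Module.Basis Par K (Sy K)} (h : IsE q t b) {n : ℕ} {F : Sy K}
    (hF : WH n F) {ν : Par} (hν : card ν ≠ n) : b.repr F ν = 0 := by
  classical
  set w : ℕ → ℕ := fun j => j + 1
  have h1 : F = ∑ κ ∈ (b.repr F).support, (b.repr F κ) • b κ := by
    conv_lhs => rw [← b.linearCombination_repr F]
    rw [Finsupp.linearCombination_apply, Finsupp.sum]
  have h2 : F = ∑ κ ∈ (b.repr F).support.filter (fun κ => card κ = n), (b.repr F κ) • b κ := by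
    have h5 : ∀ κ ∈ (b.repr F).support, weightedHomogeneousComponent w n ((b.repr F κ) • b κ)
        = if card κ = n then (b.repr F κ) • b κ else 0 := by
      intro κ _
      rw [map_smul]
      split_ifs with hκ
      · rw [IsWeightedHomogeneous.weightedHomogeneousComponent_same]
        have := h.hom κ
        rw [hκ] at this
        exact this
      · rw [IsWeightedHomogeneous.weightedHomogeneousComponent_ne n (h.hom κ)
          (fun h => hκ h.symm), smul_zero]
    calc F = weightedHomogeneousComponent w n F :=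
          (IsWeightedHomogeneous.weightedHomogeneousComponent_same hF).symm
      _ = weightedHomogeneousComponent w n (∑ κ ∈ (b.repr F).support, (b.repr F κ) • b κ) := by
          rw [← h1]
      _ = _ := by rw [map_sum, Finset.sum_congr rfl h5, Finset.sum_filter]
  have h4 := congrArg (fun G => b.repr G ν) h2
  simp only [map_sum, map_smul, Module.Basis.repr_self, Finsupp.coe_finsetSum,
    Finset.sum_apply, Finsupp.smul_apply, smul_eq_mul] at h4
  rw [h4]
  refine Finset.sum_eq_zero fun κ hκ => ?_
  rw [Finset.mem_filter] at hκ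
  rw [Finsupp.single_eq_of_ne, mul_zero]
  rintro rfl
  exact hν hκ.2

/-- elements with homogeneous coordinates are homogeneous -/
theorem IsE.WH_of_repr {q t : K} {b : Module.Basis Par K (Sy K)} (h : IsE q t b) {n : ℕ} {F : Sy K}
    (hF : ∀ ν, b.repr F ν ≠ 0 → card ν = n) : WH n F := by
  rw [← b.linearCombination_repr F, Finsupp.linearCombination_apply, Finsupp.sum]
  refine WH_sum' fun κ hκ => WH_smul' _ ?_
  rw [Finsupp.mem_support_iff] at hκ
  have := h.hom κ
  rw [hF κ hκ] at this
  exact this

/-- diagonal operators preserve the degree -/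
theorem IsE.dg_WH {q t : K} {b : Module.Basis Par K (Sy K)} (h : IsE q t b) (f : Par → K) {n : ℕ}
    {F : Sy K} (hF : WH n F) : WH n (dg b f F) := by
  refine h.WH_of_repr fun ν hν => ?_
  by_contra hne
  rw [dg_repr, h.repr_zero hF hne, mul_zero] at hν
  exact hν rfl

/-- the basis vector of the empty partition is `1` -/
theorem IsE.b_P0 {q t : K} {b : Module.Basis Par K (Sy K)} (h : IsE q t b) : b P0 = 1 := by
  have h1 : WH 0 (b P0) := by
    have := h.hom P0
    rw [card_P0] at this
    exact this
  have h2 : b P0 = C (coeff 0 (b P0)) := by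
    ext s
    rw [coeff_C]
    split_ifs with hs
    · rw [hs]
    · by_contra hne
      have h3 := h1 hne
      apply hs
      ext j
      have h4 : (Finsupp.weight (fun j : ℕ => j + 1)) s = 0 := h3
      rw [Finsupp.weight_apply, Finsupp.sum, Finset.sum_eq_zero_iff] at h4
      by_contra hj
      have hj' : s j ≠ 0 := fun h => hj (by simp [h])
      have := h4 j (Finsupp.mem_support_iff.2 hj')
      simp at this
      exact hj' this
  have h3 := h.eps P0
  rw [h2] at h3 ⊢
  have h4 : ep (0 : K) (C (coeff 0 (b P0))) = coeff 0 (b P0) := by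
    rw [ep, ev, aeval_C]; rfl
  rw [h4] at h3
  rw [h3, map_one]

/-- eigenvalues of `D_0` are distinct -/
theorem Gn.eig_inj {q t : K} (h : Gn q t) {μ ν : Par}
    (he : 1 - Mj q t 0 * Ps q t μ 0 = 1 - Mj q t 0 * Ps q t ν 0) : μ = ν := by
  apply h.inj
  have h1 : Mj q t 0 * Ps q t μ 0 = Mj q t 0 * Ps q t ν 0 := by linear_combination -he
  exact mul_left_cancel₀ (h.Mj_ne 0) h1

/-- an operator which commutes with `D_0` and raises the degree by `j >= 1` vanishes -/
theorem eq_zero_of_comm {q t : K} (hG : Gn q t) {b : Module.Basis Par K (Sy K)} (h : IsE q t b)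
    {Y : Module.End K (Sy K)} {j : ℕ} (hj : 0 < j) (hY : Dk q t 0 * Y = Y * Dk q t 0)
    (hd : ∀ n F, WH n F → WH (n + j) (Y F)) : Y = 0 := by
  refine b.ext fun μ => ?_
  rw [LinearMap.zero_apply]
  have h1 := congrArg (fun f : Module.End K (Sy K) => f (b μ)) hY
  simp only [Module.End.mul_apply] at h1
  rw [h.eig, map_smul, Dk_zero_eq_dg h] at h1
  apply b.repr.injective
  rw [map_zero]
  ext ν
  rw [Finsupp.zero_apply]
  have h2 := congrArg (fun G => b.repr G ν) h1
  simp only [map_smul, Finsupp.smul_apply, smul_eq_mul] at h2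
  rw [dg_repr] at h2
  by_cases hc : card ν = card μ + j
  · have h3 : (1 - Mj q t 0 * Ps q t ν 0) - (1 - Mj q t 0 * Ps q t μ 0) ≠ 0 := by
      intro h4
      have := hG.eig_inj (sub_eq_zero.1 h4)
      subst this
      omega
    have h5 : ((1 - Mj q t 0 * Ps q t ν 0) - (1 - Mj q t 0 * Ps q t μ 0)) * b.repr (Y (b μ)) ν = 0 := by
      linear_combination h2
    exact (mul_eq_zero.1 h5).resolve_left h3
  · exact h.repr_zero (hd _ _ (h.hom μ)) hc

end

end TH
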