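import Pool.Agent.Helper86.TH.Stmts
import Pool.Agent.Helper86.TH.Basic4

/-! # Row COM -/

set_option linter.unusedSectionVars false

namespace TH86

open TH MvPolynomial Finset

section
variable {K : Type*} [Field K] [CharZero K]

/-- the commutator of two families -/
theorem comm_family (hWM : ST_WM K) {q t : K} (hM : Mj q t 0 ≠ 0) {m n : ℕ}
    {f g : ℤ → Module.End K (Sy K)} (hf : f ∈ WF q t m) (hg : g ∈ WF q t n) :
    (fun k => f k * g k - g k * f k) ∈ WF q t (m + n) := by
  have h1 := (hWM q t hM).1 m n f g hf hg
  have h2 := (hWM q t hM).1 n m g f hg hf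
  rw [add_comm n m] at h2
  exact Submodule.sub_mem _ h1 h2

end

theorem st_COM (K : Type*) [Field K] [CharZero K] (hIND : ST_IND K) (hBA : ST_BA K)
    (hS : ST_S K) (hWM : ST_WM K) (hNA : ST_NA K) : ST_COM K := by
  intro q t hG b hb Q hQ
  have hM := hG.Mj_ne 0
  obtain ⟨hI, hL, hN⟩ := hIND q t hG b hb Q hQ
  obtain ⟨hn1, hn2, -, -⟩ := hNA q t hG b hb
  obtain ⟨Φ, ψ, hΦ⟩ := hBA q t hG b hb Q hQ
  have key : ∀ s m n : ℕ, m + n = s → 0 < m → 0 < n → Nat.Coprime m n → ∀ i j : ℕ, 0 < i → 0 < j →
      Q (i * m) (i * n) * Q (j * m) (j * n) = Q (j * m) (j * n) * Q (i * m) (i * n) := by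
    intro s
    induction s using Nat.strong_induction_on with
    | _ s ih =>
      intro m n hs hm hn hc i j hi hj
      rcases lt_trichotomy m n with h | h | h
      · -- m < n
        have hc' : Nat.Coprime m (n - m) := by
          have : Nat.gcd m (n - m) = Nat.gcd m n := Nat.gcd_sub_self_right h.le
          rw [Nat.Coprime, this]; exact hc
        have hih := ih (m + (n - m)) (by omega) m (n - m) rfl hm (by omega) hc' i j hi hj
        have hpos : ∀ i, 0 < i → 0 < i * (n - m) := fun i hi => Nat.mul_pos hi (by omega)
        obtain ⟨f, hf, hf0, hf1⟩ := hL (i * m) (i * (n - m)) (Nat.mul_pos hi hm) (Or.inl (hpos i hi))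
        obtain ⟨g, hg, hg0, hg1⟩ := hL (j * m) (j * (n - m)) (Nat.mul_pos hj hm) (Or.inl (hpos j hj))
        have e : ∀ i, i * (n - m) + i * m = i * n := by
          intro i
          rw [← Nat.mul_add]
          congr 1
          omega
        rw [e] at hf1 hg1
        have h1 := hS q t hG _ _ 0 (comm_family hWM hM hf hg) (by
          rw [hf0, hg0, hih, sub_self])
        simp only [zero_add] at h1
        rw [hf1, hg1] at h1
        exact sub_eq_zero.1 h1
      · -- m = n = 1
        subst h
        have hm1 : m = 1 := by
          have : Nat.gcd m m = 1 := hc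
          rwa [Nat.gcd_self] at this
        subst hm1
        simp only [mul_one]
        have hQi : ∀ i, 0 < i → Q i i = Φ i 0 := by
          intro i hi
          rw [(hΦ i hi).2.2 0 (i - 1) (by omega)]
          have h1 : Adm i i i (i - 1) 0 1 := by
            refine ⟨by omega, by omega, ?_⟩
            rw [Nat.gcd_self]; omega
          have h2 := hI i i hi hi i (i - 1) 0 1 h1
          rw [h2]
          congr 2
          omega
        rw [hQi i hi, hQi j hj]
        have h1 := hS q t hG _ _ (-1) (comm_family hWM hM (hΦ i hi).1 (hΦ j hj).1) (by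
          rw [(hΦ i hi).2.1, (hΦ j hj).2.1, dg_comm, sub_self])
        simp only [neg_add_cancel] at h1
        exact sub_eq_zero.1 h1
      · -- n < m
        have hc' : Nat.Coprime (m - n) n := by
          have : Nat.gcd (m - n) n = Nat.gcd m n := Nat.gcd_sub_self_left h.le
          rw [Nat.Coprime, this]; exact hc
        have hih := ih (m - n + n) (by omega) (m - n) n rfl (by omega) hn hc' i j hi hj
        have e : ∀ i, i * (m - n) + i * n = i * m := by
          intro i
          rw [← Nat.mul_add]
          congr 1
          omega
        have hconj : ∀ i, 0 < i → Q (i * m) (i * n)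
            = nab q t b * Q (i * (m - n)) (i * n) * nabi q t b := by
          intro i hi
          have h1 := hN (i * (m - n)) (i * n) (Nat.mul_pos hi hn)
            (Or.inl (Nat.mul_pos hi (by omega)))
          rw [e] at h1
          rw [h1, mul_assoc, hn1, mul_one]
        rw [hconj i hi, hconj j hj]
        have e2 : ∀ A B : Module.End K (Sy K), nab q t b * A * nabi q t b * (nab q t b * B * nabi q t b)
            = nab q t b * (A * B) * nabi q t b := by
          intro A B
          calc nab q t b * A * nabi q t b * (nab q t b * B * nabi q t b)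
              = nab q t b * A * (nabi q t b * nab q t b) * B * nabi q t b := by
                simp only [mul_assoc]
            _ = _ := by rw [hn2, mul_one]; simp only [mul_assoc]
        rw [e2, e2, hih]
  intro m n i j hm hn hi hj hc
  exact key _ m n rfl hm hn hc i j hi hj

end TH86
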