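import Pool.Agent.Helper86.TH.Stmts
import Pool.Agent.Helper86.TH.Basic4

/-! # Row WL -/

set_option linter.unusedSectionVars false

namespace TH86

open TH MvPolynomial Finset

theorem st_WL (K : Type*) [Field K] [CharZero K] (hIND : ST_IND K) (hWQ : ST_WQ K)
    (hWPM : ST_WPM K) (hCOM : ST_COM K) : ST_WL K := by
  intro q t hG b hb Q hQ m n hm hn hcop l
  have hM := hG.Mj_ne 0
  have hI := (hIND q t hG b hb Q hQ).1
  induction l with
  | nil =>
    intro _
    refine ⟨((fun _ => 1, 1) : (ℤ → Module.End K (Sy K)) × Module.End K (Sy K)), ?_, ?_, ?_⟩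
    · refine Submodule.subset_span ⟨[], by simp, by simp, ?_⟩
      simp
    · intro k; simp
    · simp
  | cons i l ih =>
    intro hl
    have hi : 0 < i := hl i List.mem_cons_self
    have hl' : ∀ j ∈ l, 0 < j := fun j hj => hl j (List.mem_cons_of_mem _ hj)
    obtain ⟨p', hp', h1', h2'⟩ := ih hl'
    obtain ⟨p, hp, h1, h2⟩ := hWQ q t hG Q hQ hI (i * m) (i * n) (Nat.mul_pos hi hm)
      (Nat.mul_pos hi hn)
    have hmem := (hWPM q t hM).1 _ _ _ _ p p' hp hp'
    refine ⟨((fun k => p.1 k * p'.1 k, p'.2 * p.2) :
      (ℤ → Module.End K (Sy K)) × Module.End K (Sy K)), ?_, ?_, ?_⟩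
    · rw [List.sum_cons, add_mul, add_mul]
      exact hmem
    · intro k
      simp only [List.map_cons, List.prod_cons]
      rw [h1 k, h1' k, show i * n + k * (i * m) = i * (n + k * m) by ring]
    · simp only [List.map_cons, List.prod_cons, List.sum_cons]
      have hc : ∀ L : List ℕ, (∀ j ∈ L, 0 < j) →
          (L.map (fun j => Q (j * n) (j * m))).prod * Q (i * n) (i * m)
            = Q (i * n) (i * m) * (L.map (fun j => Q (j * n) (j * m))).prod := by
        intro L
        induction L with
        | nil => intro _; simp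
        | cons j L ihL =>
          intro hL
          have hj : 0 < j := hL j List.mem_cons_self
          have hL' : ∀ x ∈ L, 0 < x := fun x hx => hL x (List.mem_cons_of_mem _ hx)
          rw [List.map_cons, List.prod_cons, mul_assoc, ihL hL', ← mul_assoc,
            hCOM q t hG b hb Q hQ n m j i hn hm hj hi hcop.symm, mul_assoc]
      rw [h2, h2', smul_mul_smul_comm, hc l hl', ← pow_add]
      congr 2
      ring

end TH86
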