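import Pool.Agent.Helper86.TH.Stmts
import Pool.Agent.Helper86.TH.Basic4

/-! # Rows EP1, EP0, EB, G1, QD -/

set_option linter.unusedSectionVars false

namespace TH86

open TH MvPolynomial Finset

variable {K : Type*} [Field K] [CharZero K]

theorem ep_eh (u : K) (n : ℕ) : ep u (eh K n) = hc (fun j => -(1 - u ^ (j + 1))) n := by
  have h := hc_map (ep u : Sy K →ₐ[K] K).toRingHom (fun j => -(X j : Sy K)) n
  have h1 : ep u (eh K n) = hc (fun j => (ep u : Sy K →ₐ[K] K).toRingHom (-(X j : Sy K))) n := h
  rw [h1]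
  congr 1
  funext j
  change ep u (-(X j : Sy K)) = _
  rw [map_neg, ep, ev, aeval_X]

theorem ep_eh_series (u : K) :
    hcS (fun j => -(1 - u ^ (j + 1))) = (1 - PowerSeries.C (1 : K) * PowerSeries.X)
      * hcS (fun j => u ^ (j + 1)) := by
  have h1 : (fun j => -(1 - u ^ (j + 1))) = fun j : ℕ => -((1 : K) ^ (j + 1)) + u ^ (j + 1) := by
    funext j; rw [one_pow]; ring
  rw [h1, hcS_add, hcS_neg_geom]

theorem ep_eh_succ (u : K) (n : ℕ) :
    hc (fun j => -(1 - u ^ (j + 1))) (n + 1) = u ^ (n + 1) - u ^ n := by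
  have h := congrArg (PowerSeries.coeff (n + 1)) (ep_eh_series u)
  rw [sub_mul, one_mul, map_sub, mul_assoc, PowerSeries.coeff_C_mul,
    PowerSeries.coeff_succ_X_mul] at h
  simp only [hcS, PowerSeries.coeff_mk, hc_geom, one_mul] at h
  exact h

theorem tau_zero' (q t : K) (F : Sy K) : tau q t 0 F = F := by
  rw [tau_apply]
  have : (Polynomial.constantCoeff.comp (tauA q t).toRingHom) = RingHom.id (Sy K) := by
    refine MvPolynomial.ringHom_ext (fun a => ?_) (fun j => ?_)
    · change (tauA q t (C a)).coeff 0 = _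
      have h := (tauA q t).commutes a
      rw [MvPolynomial.algebraMap_eq] at h
      rw [h]
      change (Polynomial.C (C a)).coeff 0 = _
      rw [Polynomial.coeff_C_zero]; rfl
    · change (tauA q t (X j)).coeff 0 = _
      rw [tauA_X]
      simp
  have h2 := congrArg (fun f : Sy K →+* Sy K => f F) this
  exact h2

theorem st_EP1 (K : Type*) [Field K] [CharZero K] : ST_EP1 K := by
  intro q t u F
  set N := (tauA q t F).natDegree + 1
  rw [Dk_apply q t 1 F N (by omega), Dk_apply q t 0 F N (by omega), map_sum, map_sum, mul_sum]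
  have h1 : ∀ i : ℕ, ep u (ehz K (1 + (i : ℤ)) * tau q t i F)
      = u * ep u (ehz K (0 + (i : ℤ)) * tau q t i F)
        - (if i = 0 then ep u (tau q t 0 F) else 0) := by
    intro i
    rw [show (1 + (i : ℤ)) = ((i + 1 : ℕ) : ℤ) by push_cast; ring, ehz_natCast, zero_add,
      ehz_natCast, map_mul, map_mul, ep_eh, ep_eh, ep_eh_succ]
    cases i with
    | zero => simp; ring
    | succ i => rw [ep_eh_succ, if_neg (by omega)]; ring
  rw [Finset.sum_congr rfl (fun i _ => h1 i), Finset.sum_sub_distrib]
  congr 1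
  rw [Finset.sum_ite_eq', if_pos (by rw [mem_range]; omega), tau_zero']

theorem tau_one_eq (q t : K) (F : Sy K) : tau q t 1 F = C (Mj q t 0) * pd F := by
  induction F using MvPolynomial.induction_on with
  | C a =>
    have h : tau q t 1 (C a : Sy K) = a • tau q t 1 1 := by
      rw [← map_smul, MvPolynomial.smul_eq_C_mul, mul_one]
    rw [h, tau_one]
    simp [pd]
  | add F G hF hG => rw [map_add, hF, hG, map_add, mul_add]
  | mul_X F n hF =>
    rw [tau_mul, Finset.Nat.sum_antidiagonal_eq_sum_range_succ_mk]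
    simp only [Finset.sum_range_succ, Finset.range_zero, Finset.sum_empty, zero_add, Nat.sub_zero,
      Nat.sub_self]
    rw [tau_zero', hF]
    have h1 : tau q t 1 (X n : Sy K) = if n = 0 then C (Mj q t 0) else 0 := by
      rw [tau_apply, tauA_X, Polynomial.coeff_add, Polynomial.coeff_C, Polynomial.coeff_C_mul_X_pow]
      cases n with
      | zero => simp
      | succ n => rw [if_neg (by omega), if_neg (by omega), if_neg (by omega), add_zero]
    have h2 : tau q t 0 (X n : Sy K) = X n := tau_zero' q t _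
    rw [h1, h2]
    have h3 : (pd (F * X n) : Sy K) = pd F * X n + F * (if n = 0 then 1 else 0) := by
      change pderiv 0 (F * X n) = pderiv 0 F * X n + _
      rw [Derivation.leibniz, pderiv_X]
      simp only [smul_eq_mul, Pi.single_apply]
      ring
    rw [h3]
    split_ifs <;> ring

theorem st_EP0 (K : Type*) [Field K] [CharZero K] : ST_EP0 K := by
  intro q t F
  set N := (tauA q t F).natDegree + 2
  rw [Dk_apply q t 0 F N (by omega), map_sum]
  have h1 : ∀ i : ℕ, ep (0 : K) (ehz K (0 + (i : ℤ)) * tau q t i F)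
      = (if i = 0 then ep (0 : K) (tau q t 0 F) else 0)
        - (if i = 1 then ep (0 : K) (tau q t 1 F) else 0) := by
    intro i
    rw [zero_add, ehz_natCast, map_mul, ep_eh]
    match i with
    | 0 => simp
    | 1 => rw [ep_eh_succ]; simp
    | (i + 2) =>
      rw [show i + 2 = (i + 1) + 1 by ring, ep_eh_succ, if_neg (by omega), if_neg (by omega)]
      simp
  rw [Finset.sum_congr rfl (fun i _ => h1 i), Finset.sum_sub_distrib, Finset.sum_ite_eq',
    Finset.sum_ite_eq', if_pos (by rw [mem_range]; omega), if_pos (by rw [mem_range]; omega),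
    tau_zero', tau_one_eq, map_mul]
  congr 2
  rw [ep, ev, aeval_C]; rfl

theorem Bn_one (hDX : ST_DX K) (q t : K) (hM : Mj q t 0 ≠ 0) : Bn q t 1 = -(Dk q t 1) := by
  have h := hDX q t 0
  rw [zero_add] at h
  change Del q t * mu (X 0) - mu (X 0) * Del q t = _
  have h1 : (1 - Dk q t 0) * mu (X 0) - mu (X 0) * (1 - Dk q t 0) = -(Mj q t 0 • Dk q t 1) := by
    rw [sub_mul, mul_sub, h]
    noncomm_ring
  have h2 : Del q t * mu (X 0) - mu (X 0) * Del q t
      = (Mj q t 0)⁻¹ • ((1 - Dk q t 0) * mu (X 0) - mu (X 0) * (1 - Dk q t 0)) := by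
    rw [Del, smul_mul_assoc, mul_smul_comm]
    exact (smul_sub _ _ _).symm
  rw [h2, h1, smul_neg, smul_smul, inv_mul_cancel₀ hM, one_smul]

theorem Bn_succ' (q t : K) (b : ℕ) :
    Bn q t (b + 1) = Del q t * Bn q t b - Bn q t b * Del q t := by
  rw [Bn]

theorem Bn_two_apply (hDX : ST_DX K) (q t : K) (hM : Mj q t 0 ≠ 0) (F : Sy K) :
    Mj q t 0 • Bn q t 2 F = Dk q t 0 (Dk q t 1 F) - Dk q t 1 (Dk q t 0 F) := by
  have h1 := Bn_one hDX q t hM
  have h2 := Bn_succ' q t 1
  rw [h1] at h2
  have h3 := congrArg (fun f : Module.End K (Sy K) => f F) h2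
  have hd : ∀ G : Sy K, Del q t G = (Mj q t 0)⁻¹ • (G - Dk q t 0 G) := fun G => rfl
  have h4 : Bn q t 2 F = -(Del q t (Dk q t 1 F)) + Dk q t 1 (Del q t F) := by
    have h5 : Bn q t 2 F = Del q t ((-(Dk q t 1)) F) - (-(Dk q t 1)) (Del q t F) := h3
    rw [h5, LinearMap.neg_apply, LinearMap.neg_apply, map_neg, sub_neg_eq_add]
  rw [h4, hd, hd, map_smul, map_sub, smul_add, smul_neg, smul_smul, smul_smul,
    mul_inv_cancel₀ hM, one_smul, one_smul]
  abel

theorem st_EB (K : Type*) [Field K] [CharZero K] (hDX : ST_DX K) (hPD : ST_PD K) (h1 : ST_EP1 K)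
    (h0 : ST_EP0 K) : ST_EB K := by
  intro q t hM F
  have e1 : ∀ G : Sy K, ep (0 : K) (Dk q t 1 G) = -ep (0 : K) G := by
    intro G
    have := h1 q t 0 G
    rw [this]; ring
  refine ⟨?_, ?_⟩
  · rw [Bn_one hDX q t hM, LinearMap.neg_apply, map_neg, e1, neg_neg]
  · have h2 := congrArg (fun f : Sy K => ep (0 : K) f) (Bn_two_apply hDX q t hM F)
    simp only [map_smul, map_sub, smul_eq_mul] at h2
    have h3 : (pd (Dk q t 1 F) : Sy K) = Dk q t 1 (pd F) - Dk q t 0 F := by
      have := congrArg (fun f : Module.End K (Sy K) => f F) (hPD q t 1)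
      simpa using this
    rw [h0 q t (Dk q t 1 F), h3, map_sub, e1, e1, e1] at h2
    have h4 : Mj q t 0 * ep (0 : K) (Bn q t 2 F) = Mj q t 0 * ep (0 : K) (Dk q t 0 F) := by
      rw [h2, h0 q t F]; ring
    exact mul_left_cancel₀ hM h4

theorem Dk_Nn_comm {q t : K} {b : Module.Basis Par K (Sy K)} (h : IsE q t b) (r : ℕ) :
    Dk q t 0 * Nn q t b r = Nn q t b r * Dk q t 0 := by
  rw [Dk_zero_eq_dg h, Nn, dg_comm]

theorem mu_comm (F G : Sy K) : mu F * mu G = mu G * mu F := by
  refine LinearMap.ext fun x => ?_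
  rw [Module.End.mul_apply, Module.End.mul_apply, mu_apply, mu_apply, mu_apply, mu_apply]
  ring

theorem st_G1 (K : Type*) [Field K] [CharZero K] (hCS : ST_CS K) (hDX : ST_DX K)
    (hDT : ST_DT K) : ST_G1 K := by
  intro q t hG b hb k
  obtain ⟨hN, -, -, -, hN0, -, -⟩ := hCS q t hG b hb
  have hM := hG.Mj_ne 0
  have hT := hDT q t hG.Mj_ne 0
  have hB1 := Bn_one hDX q t hM
  rw [zero_add] at hT
  -- the two formulas, with the convention that terms of index `-1` vanish
  have hX : ∀ r, Nn q t b r * mu (X 0) = mu (X 0) * Nn q t b r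
      + (if r = 0 then 0 else Dk q t 1 * Nn q t b (r - 1)) := by
    intro r
    cases r with
    | zero => rw [hN0, if_pos rfl]; simp
    | succ r =>
      have := hN r 0
      rw [if_neg (by omega), Nat.add_sub_cancel]
      change Nn q t b (r + 1) * Bn q t 0 = Bn q t 0 * _ + _
      rw [this, zero_add, hB1]
      refine LinearMap.ext fun F => ?_
      simp only [LinearMap.sub_apply, LinearMap.add_apply, Module.End.mul_apply,
        LinearMap.neg_apply]
      abel
  have hD : ∀ a, Dk q t 0 * mu (est q t a) = mu (est q t a) * Dk q t 0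
      + (if a = 0 then 0 else mu (est q t (a - 1)) * Dk q t 1) := by
    intro a
    cases a with
    | zero =>
      rw [if_pos rfl, est_zero, add_zero]
      have : mu (1 : Sy K) = 1 := by
        refine LinearMap.ext fun x => ?_
        rw [mu_apply, one_mul, Module.End.one_apply]
      rw [this, mul_one, one_mul]
    | succ a =>
      rw [if_neg (by omega), Nat.add_sub_cancel]
      exact hT a
  have hL : Gk q t b k * (mu (X 0) + Dk q t 0)
      = ∑ p ∈ antidiagonal k, (mu (X 0) * (mu (est q t p.1) * Nn q t b p.2)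
        + mu (est q t p.1) * Dk q t 0 * Nn q t b p.2)
        + ∑ p ∈ antidiagonal k, (if p.2 = 0 then 0 else
            mu (est q t p.1) * (Dk q t 1 * Nn q t b (p.2 - 1))) := by
    rw [Gk, Finset.sum_mul, ← Finset.sum_add_distrib]
    refine Finset.sum_congr rfl fun p _ => ?_
    rw [mul_add, mul_assoc, hX, mul_add, ← mul_assoc (mu (est q t p.1)) (mu (X 0)), mu_comm,
      mul_assoc, mul_assoc (mu (est q t p.1)) (Nn q t b p.2), ← Dk_Nn_comm hb.toIsE,
      ← mul_assoc (mu (est q t p.1)) (Dk q t 0)]
    split_ifs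
    · rw [mul_zero]; abel
    · abel
  have hR : (mu (X 0) + Dk q t 0) * Gk q t b k
      = ∑ p ∈ antidiagonal k, (mu (X 0) * (mu (est q t p.1) * Nn q t b p.2)
        + mu (est q t p.1) * Dk q t 0 * Nn q t b p.2)
        + ∑ p ∈ antidiagonal k, (if p.1 = 0 then 0 else
            mu (est q t (p.1 - 1)) * (Dk q t 1 * Nn q t b p.2)) := by
    rw [Gk, Finset.mul_sum, ← Finset.sum_add_distrib]
    refine Finset.sum_congr rfl fun p _ => ?_
    rw [add_mul, ← mul_assoc (Dk q t 0), hD, add_mul]
    split_ifs
    · rw [zero_mul]; abel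
    · rw [mul_assoc (mu (est q t (p.1 - 1)))]; abel
  rw [hL, hR]
  congr 1
  cases k with
  | zero => simp
  | succ k =>
    rw [Finset.Nat.sum_antidiagonal_succ', Finset.Nat.sum_antidiagonal_succ]
    simp

theorem st_QD (K : Type*) [Field K] [CharZero K] (hDEG : ST_DEG K) : ST_QD K := by
  intro q t Q hQ
  -- statement for all pairs including the boundary
  have key : ∀ s m n : ℕ, m + n = s → ((0 < m ∧ 0 < n) ∨ (m = 1 ∧ n = 0) ∨ (m = 0 ∧ n = 1)) →
      ∀ (r : ℕ) (F : Sy K), WH r F → WH (r + n) (Q m n F) := by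
    intro s
    induction s using Nat.strong_induction_on with
    | _ s ih =>
      intro m n hs h r F hF
      rcases h with ⟨hm, hn⟩ | ⟨rfl, rfl⟩ | ⟨rfl, rfl⟩
      · obtain ⟨a, b, c, d, ⟨h1, h2, h3⟩, h4⟩ := hQ.rc m n hm hn
        have hg : 0 < Nat.gcd m n := Nat.gcd_pos_of_pos_left _ hm
        have ha : 0 < a := by
          rcases Nat.eq_zero_or_pos a with h | h
          · subst h; rw [zero_mul] at h3; omega
          · exact h
        have hd : 0 < d := by
          rcases Nat.eq_zero_or_pos d with h | h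
          · subst h; rw [mul_zero] at h3; omega
          · exact h
        have hgm : Nat.gcd m n ≤ m := Nat.gcd_le_left _ hm
        have hgn : Nat.gcd m n ≤ n := Nat.gcd_le_right _ hn
        have hab : (0 < a ∧ 0 < b) ∨ (a = 1 ∧ b = 0) ∨ (a = 0 ∧ b = 1) := by
          rcases Nat.eq_zero_or_pos b with h | h
          · right; left
            refine ⟨?_, h⟩
            subst h
            rw [zero_mul, zero_add] at h3
            rw [zero_add] at h2
            subst h2
            have : a * d ≤ 1 * d := by omega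
            have := Nat.le_of_mul_le_mul_right this hd
            omega
          · exact Or.inl ⟨ha, h⟩
        have hcd : (0 < c ∧ 0 < d) ∨ (c = 1 ∧ d = 0) ∨ (c = 0 ∧ d = 1) := by
          rcases Nat.eq_zero_or_pos c with h | h
          · right; right
            refine ⟨h, ?_⟩
            subst h
            rw [mul_zero, zero_add] at h3
            rw [add_zero] at h1
            subst h1
            have : a * d ≤ a * 1 := by omega
            have := Nat.le_of_mul_le_mul_left this ha
            omega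
          · exact Or.inl ⟨h, hd⟩
        have i1 := ih (a + b) (by omega) a b rfl hab
        have i2 := ih (c + d) (by omega) c d rfl hcd
        rw [h4, cm, LinearMap.smul_apply, LinearMap.sub_apply, Module.End.mul_apply,
          Module.End.mul_apply]
        refine WH_smul' _ (WH_sub ?_ ?_)
        · have := i2 _ _ (i1 r F hF)
          rw [show r + b + d = r + n by omega] at this
          exact this
        · have := i1 _ _ (i2 r F hF)
          rw [show r + d + b = r + n by omega] at this
          exact this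
      · rw [hQ.q10]
        have := (hDEG q t r F hF).1 0 (by omega)
        simpa using this
      · rw [hQ.q01, LinearMap.neg_apply, mu_apply]
        have := WH_smul' (-1 : K) (WH_mul (WH_X (K := K) 0) hF)
        rw [show 0 + 1 + r = r + 1 by omega] at this
        simpa using this
  intro m n r F hm hn hF
  exact key _ m n rfl (Or.inl ⟨hm, hn⟩) r F hF

end TH86
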