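import Pool.Agent.Helper86.TH.Final
import Pool.Agent.Helper86.TH.RowsA
import Pool.Agent.Helper12.TH.BI
import Pool.Agent.Helper12.TH.BM
import Pool.Agent.Helper12.TH.BT
import Pool.Agent.Helper19.TH.DN2
import Pool.Agent.Helper19.TH.ES
import Pool.Agent.Helper20.TH.P1
import Pool.Agent.Helper25.TH.NU
import Pool.Agent.Helper25.TH.PFR
import Pool.Agent.Helper27.TH.DN1
import Pool.Agent.Helper27.TH.IND
import Pool.Agent.Helper27.TH.W4
import Pool.Agent.Helper29.TH.GG
import Pool.Agent.Helper29.TH.STAR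
import Pool.Agent.Helper29.TH.W5
import Pool.Agent.Helper30.TH.CNJ
import Pool.Agent.Helper31.TH.HAP
import Pool.Agent.Helper31.TH.S
import Pool.Agent.Helper31.TH.VO
import Pool.Agent.Helper35.TH.KABD
import Pool.Agent.Helper48.TH.F2
import Pool.Agent.Helper50.TH.NT
import Pool.Agent.Helper50.TH.Q1
import Pool.Agent.Helper50.TH.WM
import Pool.Agent.Helper50.TH.WQ
import Pool.Agent.Helper86.TH.RowWL
import Pool.Agent.Helper86.TH.RowCOM
import Pool.Agent.Helper55.TH.BAS
import Pool.Agent.Helper55.TH.INT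
import Pool.Agent.Helper55.TH.RR
import Pool.Agent.Helper61.TH.II
import Pool.Agent.Helper61.TH.PD
import Pool.Agent.Helper63.TH.W1
import Pool.Agent.Helper63.TH.W2
import Pool.Agent.Helper63.TH.W3
import Pool.Agent.Helper63.TH.Y1
import Pool.Agent.Helper63.TH.Y2
import Pool.Agent.Helper66.TH.HT
import Pool.Agent.Helper66.TH.VR
import Pool.Agent.Helper70.TH.BA
import Pool.Agent.Helper70.TH.CB
import Pool.Agent.Helper70.TH.W7
import Pool.Agent.Helper72.TH.ADJ
import Pool.Agent.Helper72.TH.BF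
import Pool.Agent.Helper72.TH.EPU
import Pool.Agent.Helper72.TH.THR
import Pool.Agent.Helper73.TH.DEG
import Pool.Agent.Helper73.TH.TC
import Pool.Agent.Helper78.TH.EH
import Pool.Agent.Helper78.TH.EZ
import Pool.Agent.Helper78.TH.MB
import Pool.Agent.Helper79.TH.TI
import Pool.Agent.Helper8.TH.GN
import Pool.Agent.Helper8.TH.W6
import Pool.Agent.Helper80.TH.PF1
import Pool.Agent.Helper80.TH.RIG
import Pool.Agent.Helper80.TH.U
import Pool.Agent.Helper95.TH.DS
import Pool.Agent.Helper95.TH.HAI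
import Pool.Agent.Helper95.TH.HH
import Pool.Agent.Helper96.TH.HS
import Pool.Agent.Helper96.TH.HV

/-! # Assembly of the rows -/

namespace TH

open MvPolynomial Finset

/-- all rows together -/
theorem final (K : Type*) [Field K] [CharZero K] : FinalStatement K := by
  have DX : ST_DX K := TH31.st_DX (K := K)
  have DT : ST_DT K := TH31.st_DT (K := K)
  have hNT : ST_NT := TH50.st_NT
  have hWM : ST_WM K := TH50.st_WM (K := K) DX
  have hWPM : ST_WPM K := TH50.st_WPM (K := K) DX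
  have hQ1 : ST_Q1 K := TH50.st_Q1 (K := K) DX
  have PD : ST_PD K := TH61.st_PD (K := K) 
  have EB : ST_EB K := TH86.st_EB (K := K) DX PD (TH86.st_EP1 (K := K)) (TH86.st_EP0 (K := K))
  have U : ST_U K := TH80.st_U (K := K) DX
  have BF : ST_BF K := TH72.st_BF (K := K)
  have DEG : ST_DEG K := Helper73.TH.st_DEG (K := K)
  have PFR : ST_PFR K := TH25.st_PFR (K := K) 
  have PF0 : ST_PF0 K := TH25.st_PF0 (K := K) 
  have PF1 : ST_PF1 K := TH80.st_PF1 (K := K) PF0
  have RR : ST_RR K := TH55.st_RR (K := K) PFR PF0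
  have INT : ST_INT K := TH55.st_INT (K := K) PF1
  have TI : ST_TI K := TH79.st_TI (K := K) DEG
  have II : ST_II K := TH61.st_II (K := K) TI INT (TH27.st_DN1 (K := K) ) (TH19.st_DN2 (K := K))
  have P1 : ST_P1 K := TH20.st_P1 (K := K) II INT
  have MB' : ST_MB K := TH78.st_MB (K := K) P1 RR (TH.H35.st_KA (K := K) ) (TH.H35.st_KB (K := K) )
    (TH.H35.st_KD (K := K) ) (TH.H35.st_PATH (K := K) ) U DX
  have BM' : ST_BM K := TH12.st_BM (K := K) 
  have CO : ST_CO K := TH12.st_CO (K := K) BM'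
  have CS : ST_CS K := TH12.st_CS (K := K) CO
  have PP : ST_PP K := TH12.st_PP (K := K) BM'
  have NA : ST_NA K := TH12.st_NA (K := K) BM'
  have F2 : ST_F2 K := TH48.st_F2 (K := K) U BM' EB DX
  have NU : ST_NU K := TH25.st_NU (K := K) 
  have G1 : ST_G1 K := TH86.st_G1 (K := K) CS DX DT
  have RIG : ST_RIG K := TH80.st_RIG (K := K) 
  have GG : ST_GG K := TH29.st_GG (K := K) G1 RIG
  have Y1 : ST_Y1 K := TH63.st_Y1 (K := K) CS DX DT
  have Y2 : ST_Y2 K := TH63.st_Y2 (K := K) Y1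
  have W1 : ST_W1 K := TH63.st_W1 (K := K) CS GG
  have W2 : ST_W2 K := TH63.st_W2 (K := K) W1 Y2
  have W3 : ST_W3 K := TH63.st_W3 (K := K) Y1 Y2 W2 (TH86.st_EP1 (K := K))
  have W4 : ST_W4 K := TH27.st_W4 (K := K) W3 U CS (TH86.st_EP1 (K := K)) DX
  have W5 : ST_W5 K := TH29.st_W5 (K := K) CS Y2 NU
  have W6 : ST_W6 K := TH8.st_W6 (K := K) W5 W2 F2
  have W7 : ST_W7 K := TH70.st_W7 (K := K) W2 W4 W5 W6
  have TH' : ST_TH K := TH72.st_TH (K := K) W7
  have ED : ST_ED K := TH72.st_ED (K := K) F2 NU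
  have DE : ST_DE K := TH31.st_DE (K := K)
  have VR : ST_VR K := TH66.st_VR (K := K) DE
  have SG : ST_SG K := TH72.st_SG (K := K)
  have EZ : ST_EZ K := TH78.st_EZ (K := K) VR SG
  have EH : ST_EH K := TH78.st_EH (K := K)
  have ES : ST_ES K := TH19.st_ES (K := K) EH
  have TC : ST_TC K := Helper73.TH.st_TC (K := K)
  have DS : ST_DS K := TH95.st_DS (K := K) EZ EH ES TC
  have BT : ST_BT K := TH12.st_BT (K := K) PP CO
  have BI : ST_BI K := TH12.st_BI (K := K) CS
  have STAR : ST_STAR K := TH29.st_STAR (K := K) DS BT BI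
  have S' : ST_S K := TH31.st_S (K := K)
  have PS : ST_PS K := TH72.st_PS (K := K)
  have CB : ST_CB K := TH70.st_CB (K := K) PS PD
  have BA : ST_BA K := TH70.st_BA (K := K) hQ1 CB hWM S' DX
  have IND' : ST_IND K := TH27.st_IND (K := K) hNT hQ1 BA hWM S' NA
  have COM : ST_COM K := TH86.st_COM (K := K) IND' BA S' hWM NA
  have WQ : ST_WQ K := TH50.st_WQ (K := K) DX
  have WL : ST_WL K := TH86.st_WL (K := K) IND' WQ hWPM COM
  have HA : ST_HA K := TH31.st_HA (K := K)
  have HP : ST_HP K := TH31.st_HP (K := K)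
  have HV : ST_HV K := TH96.st_HV (K := K) PF0
  have HS : ST_HS K := TH96.st_HS (K := K) HP HV
  have HH : ST_HH K := TH95.st_HH (K := K)
  have HT : ST_HT K := TH66.st_HT (K := K) HA HS HH
  have HAI : ST_HAI K := TH95.st_HAI (K := K) HT (TH31.st_HQ (K := K)) (TH30.st_CNJ (K := K)) TH30.st_DOM
    (TH72.st_CAU (K := K))
  exact main_red (TH8.st_GN (K := K)) HAI (TH55.st_BAS (K := K)) MB' WL STAR ED TH' (TH86.st_QD (K := K) DEG) BF

end TH
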