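import Pool.Agent.Helper86.TH.Defs

/-! # Elementary facts about `hc` -/

namespace TH

open MvPolynomial Finset

section hcs
variable {R : Type*} [CommRing R] [Algebra ℚ R]

@[simp] theorem hc_zero (c : ℕ → R) : hc c 0 = 1 := by rw [hc]

theorem hc_succ' (c : ℕ → R) (n : ℕ) :
    hc c (n + 1) = (((n : ℚ) + 1)⁻¹) • ∑ i ∈ range (n + 1), c i * hc c (n - i) := by
  rw [hc, ← Fin.sum_univ_eq_sum_range (fun i => c i * hc c (n - i)) (n + 1)]

theorem hc_rec (c : ℕ → R) (n : ℕ) :
    ((n : ℚ) + 1) • hc c (n + 1) = ∑ i ∈ range (n + 1), c i * hc c (n - i) := by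
  rw [hc_succ', smul_smul, mul_inv_cancel₀ (by positivity), one_smul]

theorem hc_rec_mul (c : ℕ → R) (n : ℕ) :
    ((n : R) + 1) * hc c (n + 1) = ∑ i ∈ range (n + 1), c i * hc c (n - i) := by
  rw [← hc_rec, Algebra.smul_def]
  simp

/-- uniqueness of a sequence satisfying the Newton recursion -/
theorem hc_unique (c : ℕ → R) (h : ℕ → R) (h0 : h 0 = 1)
    (hr : ∀ n : ℕ, ((n : R) + 1) * h (n + 1) = ∑ i ∈ range (n + 1), c i * h (n - i)) (n : ℕ) :
    h n = hc c n := by
  induction n using Nat.strong_induction_on with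
  | _ n ih =>
    cases n with
    | zero => rw [h0, hc_zero]
    | succ n =>
      have h1 : ((n : R) + 1) * h (n + 1) = ((n : R) + 1) * hc c (n + 1) := by
        rw [hr, hc_rec_mul]
        refine Finset.sum_congr rfl fun i hi => ?_
        rw [ih (n - i) (by omega)]
      have h2 : ((n : ℚ) + 1) • h (n + 1) = ((n : ℚ) + 1) • hc c (n + 1) := by
        rw [Algebra.smul_def, Algebra.smul_def]
        simpa using h1
      have h3 := congrArg (fun x => (((n : ℚ) + 1)⁻¹) • x) h2
      simpa [smul_smul, inv_mul_cancel₀ (show ((n : ℚ) + 1) ≠ 0 by positivity)] using h3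

theorem hc_one (c : ℕ → R) : hc c 1 = c 0 := by
  have := hc_rec_mul c 0
  simpa using this

theorem hc_congr {c d : ℕ → R} {n : ℕ} (h : ∀ i, i < n → c i = d i) : hc c n = hc d n := by
  induction n using Nat.strong_induction_on with
  | _ n ih =>
    cases n with
    | zero => rw [hc_zero, hc_zero]
    | succ n =>
      rw [hc_succ', hc_succ']
      congr 1
      refine Finset.sum_congr rfl fun i hi => ?_
      rw [mem_range] at hi
      rw [h i hi, ih (n - i) (by omega) (fun j hj => h j (by omega))]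

/-- the zero alphabet -/
theorem hc_zero_fun (n : ℕ) : hc (fun _ => (0 : R)) (n + 1) = 0 := by
  rw [hc_succ']
  simp

/-- scaling of the variables -/
theorem hc_scale (x : R) (c : ℕ → R) (n : ℕ) :
    hc (fun j => x ^ (j + 1) * c j) n = x ^ n * hc c n := by
  symm
  refine hc_unique _ (fun n => x ^ n * hc c n) (by simp) (fun n => ?_) n
  have h1 : ((n : R) + 1) * (x ^ (n + 1) * hc c (n + 1))
      = x ^ (n + 1) * (((n : R) + 1) * hc c (n + 1)) := by ring
  rw [h1, hc_rec_mul, Finset.mul_sum]
  refine Finset.sum_congr rfl fun i hi => ?_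
  rw [mem_range] at hi
  have : x ^ (n + 1) = x ^ (i + 1) * x ^ (n - i) := by rw [← pow_add]; congr 1; omega
  rw [this]; ring

/-- the power series of `hc` -/
noncomputable def hcS (c : ℕ → R) : PowerSeries R := PowerSeries.mk (hc c)

/-- the power series of the power sums -/
noncomputable def pS (c : ℕ → R) : PowerSeries R := PowerSeries.mk c

theorem hcS_deriv (c : ℕ → R) :
    PowerSeries.derivative R (hcS c) = pS c * hcS c := by
  ext n
  rw [PowerSeries.coeff_derivative, PowerSeries.coeff_mul, hcS, PowerSeries.coeff_mk]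
  have := hc_rec_mul c n
  rw [mul_comm, this, Finset.Nat.sum_antidiagonal_eq_sum_range_succ_mk]
  simp [pS]

theorem hcS_unique (c : ℕ → R) (f : PowerSeries R) (h0 : PowerSeries.coeff 0 f = 1)
    (hd : PowerSeries.derivative R f = pS c * f) : f = hcS c := by
  ext n
  rw [hcS, PowerSeries.coeff_mk]
  refine hc_unique c (fun n => PowerSeries.coeff n f) h0 (fun n => ?_) n
  have := congrArg (PowerSeries.coeff n) hd
  rw [PowerSeries.coeff_derivative, PowerSeries.coeff_mul,
    Finset.Nat.sum_antidiagonal_eq_sum_range_succ_mk] at this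
  simp only [pS, PowerSeries.coeff_mk] at this
  rw [← this, mul_comm]

theorem hcS_add (c d : ℕ → R) : hcS (fun j => c j + d j) = hcS c * hcS d := by
  symm
  refine hcS_unique _ _ ?_ ?_
  · simp [hcS, PowerSeries.coeff_mul]
  · rw [Derivation.leibniz, hcS_deriv, hcS_deriv]
    have : pS (fun j => c j + d j) = pS c + pS d := by ext; simp [pS]
    rw [this]
    simp only [smul_eq_mul]
    ring

/-- additivity -/
theorem hc_add (c d : ℕ → R) (n : ℕ) :
    hc (fun j => c j + d j) n = ∑ p ∈ antidiagonal n, hc c p.1 * hc d p.2 := by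
  have := congrArg (PowerSeries.coeff n) (hcS_add c d)
  rw [PowerSeries.coeff_mul] at this
  simpa [hcS] using this

theorem hc_add_range (c d : ℕ → R) (n : ℕ) :
    hc (fun j => c j + d j) n = ∑ i ∈ range (n + 1), hc c i * hc d (n - i) := by
  rw [hc_add, Finset.Nat.sum_antidiagonal_eq_sum_range_succ_mk]

theorem hcS_zero : hcS (fun _ => (0 : R)) = 1 := by
  ext n
  rw [hcS, PowerSeries.coeff_mk]
  cases n with
  | zero => simp
  | succ n => rw [hc_zero_fun, PowerSeries.coeff_one]; simp

/-- inverse -/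
theorem hcS_neg_mul (c : ℕ → R) : hcS (fun j => -(c j)) * hcS c = 1 := by
  rw [← hcS_add, ← hcS_zero]
  congr 1
  funext j
  ring

theorem hc_neg_conv (c : ℕ → R) (n : ℕ) :
    ∑ p ∈ antidiagonal n, hc (fun j => -(c j)) p.1 * hc c p.2 = if n = 0 then 1 else 0 := by
  have := congrArg (PowerSeries.coeff n) (hcS_neg_mul c)
  rw [PowerSeries.coeff_mul, PowerSeries.coeff_one] at this
  simpa [hcS] using this

/-- one variable -/
theorem hc_geom (x : R) (n : ℕ) : hc (fun j => x ^ (j + 1)) n = x ^ n := by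
  symm
  refine hc_unique _ (fun n => x ^ n) (by simp) (fun n => ?_) n
  rw [Finset.sum_congr rfl (g := fun _ => x ^ (n + 1))]
  · simp
  · intro i hi
    rw [mem_range] at hi
    rw [← pow_add]; congr 1; omega

theorem hcS_geom (x : R) : (1 - PowerSeries.C x * PowerSeries.X) * hcS (fun j => x ^ (j + 1)) = 1 := by
  ext n
  rw [sub_mul, one_mul, map_sub, mul_assoc, PowerSeries.coeff_C_mul, PowerSeries.coeff_one]
  cases n with
  | zero => simp [hcS]
  | succ n =>
    rw [PowerSeries.coeff_succ_X_mul]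
    simp only [hcS, PowerSeries.coeff_mk, hc_geom]
    simp [pow_succ']

theorem hcS_neg_geom (x : R) :
    hcS (fun j => -(x ^ (j + 1))) = 1 - PowerSeries.C x * PowerSeries.X := by
  have h1 := hcS_geom x
  have h2 := hcS_neg_mul (fun j => x ^ (j + 1))
  calc hcS (fun j => -(x ^ (j + 1)))
      = hcS (fun j => -(x ^ (j + 1))) * ((1 - PowerSeries.C x * PowerSeries.X)
          * hcS (fun j => x ^ (j + 1))) := by rw [h1, mul_one]
    _ = (hcS (fun j => -(x ^ (j + 1))) * hcS (fun j => x ^ (j + 1)))
          * (1 - PowerSeries.C x * PowerSeries.X) := by ring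
    _ = _ := by rw [h2, one_mul]

theorem hc_neg_geom_one (x : R) : hc (fun j => -(x ^ (j + 1))) 1 = -x := by
  rw [hc_one]; simp

theorem hc_neg_geom_two (x : R) (n : ℕ) : hc (fun j => -(x ^ (j + 1))) (n + 2) = 0 := by
  have := congrArg (PowerSeries.coeff (n + 2)) (hcS_neg_geom x)
  rw [map_sub, PowerSeries.coeff_one, PowerSeries.coeff_C_mul, PowerSeries.coeff_X] at this
  simpa [hcS] using this

/-- finite sums of alphabets -/
theorem hcS_sum {ι : Type*} (s : Finset ι) (c : ι → ℕ → R) :
    hcS (fun j => ∑ i ∈ s, c i j) = ∏ i ∈ s, hcS (c i) := by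
  classical
  induction s using Finset.induction_on with
  | empty => simp [hcS_zero]
  | insert a s ha ih =>
    rw [Finset.prod_insert ha, ← ih, ← hcS_add]
    congr 1
    funext j
    rw [Finset.sum_insert ha]

/-- compatibility with ring homomorphisms -/
theorem hc_map {S : Type*} [CommRing S] [Algebra ℚ S] (f : R →+* S) (c : ℕ → R) (n : ℕ) :
    f (hc c n) = hc (fun j => f (c j)) n := by
  refine hc_unique _ (fun n => f (hc c n)) (by simp) (fun n => ?_) n
  have := congrArg f (hc_rec_mul c n)
  simpa using this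

/-- derivations -/
theorem hc_sign (c : ℕ → R) (n : ℕ) :
    hc (fun j => -(c j)) n = (-1) ^ n * hc (fun j => (-1) ^ j * c j) n := by
  rw [← hc_scale]
  congr 1
  funext j
  ring_nf
  rw [mul_comm j 2, pow_mul]
  simp

end hcs

end TH
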