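import Pool.Agent.Helper86.TH.Basic

/-! # Elementary facts about `tau`, `Dk`, `dg` -/

set_option linter.unusedSectionVars false

namespace TH

open MvPolynomial Finset

section
variable {K : Type*} [Field K] [CharZero K]

theorem tau_apply (q t : K) (i : ℕ) (F : Sy K) : tau q t i F = (tauA q t F).coeff i := rfl

theorem mu_apply (F G : Sy K) : mu F G = F * G := rfl

theorem tauA_X (q t : K) (j : ℕ) :
    tauA q t (X j) = Polynomial.C (X j) + Polynomial.C (C (Mj q t j)) * Polynomial.X ^ (j + 1) := by
  simp [tauA]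

theorem tau_mul (q t : K) (n : ℕ) (F G : Sy K) :
    tau q t n (F * G) = ∑ p ∈ antidiagonal n, tau q t p.1 F * tau q t p.2 G := by
  rw [tau_apply, map_mul, Polynomial.coeff_mul]
  rfl

theorem tau_one (q t : K) (n : ℕ) : tau q t n 1 = if n = 0 then 1 else 0 := by
  rw [tau_apply, map_one, Polynomial.coeff_one]

/-- `tau i F = 0` for large `i` -/
theorem tau_large (q t : K) (F : Sy K) (i : ℕ) (h : (tauA q t F).natDegree < i) :
    tau q t i F = 0 := by
  rw [tau_apply]
  exact Polynomial.coeff_eq_zero_of_natDegree_lt h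

/-- the vertex operator as a finite sum -/
theorem Dk_apply (q t : K) (k : ℤ) (F : Sy K) (N : ℕ) (h : (tauA q t F).natDegree < N) :
    Dk q t k F = ∑ i ∈ range N, ehz K (k + i) * tau q t i F := by
  have h1 : Dk q t k F = (tauA q t F).sum (fun i a => ehz K (k + i) * a) := rfl
  rw [h1, Polynomial.sum_over_range' _ (fun i => by simp) N h]
  rfl

/-- the effect of `tau` on the functions `h_a[alpha X]` -/
theorem tau_hc (q t : K) (α : ℕ → K) (i a : ℕ) :
    tau q t i (hc (fun j => C (α j) * (X j : Sy K)) a) =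
      if i ≤ a then C (hc (fun j => α j * Mj q t j) i) * hc (fun j => C (α j) * (X j : Sy K)) (a - i)
      else 0 := by
  have h1 : tauA q t (hc (fun j => C (α j) * (X j : Sy K)) a)
      = hc (fun j => Polynomial.C (C (α j) * X j)
        + Polynomial.X ^ (j + 1) * Polynomial.C (C (α j * Mj q t j))) a := by
    have h := hc_map (tauA q t).toRingHom (fun j => C (α j) * (X j : Sy K)) a
    have h' : (tauA q t) (hc (fun j => C (α j) * (X j : Sy K)) a)
      = hc (fun j => (tauA q t).toRingHom (C (α j) * (X j : Sy K))) a := h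
    rw [h']
    congr 1
    funext j
    change tauA q t (C (α j) * (X j : Sy K)) = _
    rw [map_mul, tauA_X]
    have : tauA q t (C (α j)) = Polynomial.C (C (α j)) := by
      have h := (tauA q t).commutes (α j)
      rw [MvPolynomial.algebraMap_eq] at h
      rw [h]
      rfl
    rw [this]
    simp only [map_mul]
    ring
  rw [tau_apply, h1, hc_add, Polynomial.finsetSum_coeff]
  have h2 : ∀ n, hc (fun j => Polynomial.C (C (α j) * (X j : Sy K))) n
      = Polynomial.C (hc (fun j => C (α j) * (X j : Sy K)) n) := fun n =>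
    (hc_map (Polynomial.C : Sy K →+* Polynomial (Sy K)) _ n).symm
  have h3 : ∀ n, hc (fun j => (Polynomial.X : Polynomial (Sy K)) ^ (j + 1)
      * Polynomial.C (C (α j * Mj q t j))) n
      = Polynomial.X ^ n * Polynomial.C (C (hc (fun j => α j * Mj q t j) n)) := by
    intro n
    rw [hc_scale]
    congr 1
    have h4 := hc_map ((Polynomial.C : Sy K →+* Polynomial (Sy K)).comp (C : K →+* Sy K))
      (fun j => α j * Mj q t j) n
    exact h4.symm
  simp only [h2, h3]
  split_ifs with hia
  · rw [Finset.sum_eq_single (a - i, i)]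
    · rw [mul_comm (Polynomial.X ^ i), ← mul_assoc, ← Polynomial.C_mul, Polynomial.coeff_C_mul_X_pow]
      simp [mul_comm]
    · intro p hp hne
      rw [HasAntidiagonal.mem_antidiagonal] at hp
      rw [mul_comm (Polynomial.X ^ p.2), ← mul_assoc, ← Polynomial.C_mul,
        Polynomial.coeff_C_mul_X_pow, if_neg]
      intro h
      apply hne
      ext <;> simp <;> omega
    · intro h
      exfalso; apply h
      rw [HasAntidiagonal.mem_antidiagonal]; omega
  · refine Finset.sum_eq_zero fun p hp => ?_
    rw [HasAntidiagonal.mem_antidiagonal] at hp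
    rw [mul_comm (Polynomial.X ^ p.2), ← mul_assoc, ← Polynomial.C_mul,
      Polynomial.coeff_C_mul_X_pow, if_neg]
    omega

theorem tau_eh (q t : K) (i a : ℕ) :
    tau q t i (eh K a) = if i ≤ a then om q t i • eh K (a - i) else 0 := by
  have h := tau_hc q t (fun _ => (-1 : K)) i a
  have h1 : (fun j => C (-1 : K) * (X j : Sy K)) = fun j => -(X j : Sy K) := by
    funext j; simp
  have h2 : (fun j => (-1 : K) * Mj q t j) = fun j => -(Mj q t j) := by
    funext j; simp
  rw [h1, h2] at h
  rw [eh, h, om, eh]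
  split_ifs
  · rw [MvPolynomial.smul_eq_C_mul]
  · rfl

theorem om_zero (q t : K) : om q t 0 = 1 := by simp [om]

theorem om_one (q t : K) : om q t 1 = -(Mj q t 0) := by simp [om, hc_one]

theorem eh_zero : eh K 0 = 1 := by simp [eh]

theorem eh_one : eh K 1 = -(X 0) := by simp [eh, hc_one]

theorem hst_zero (q t : K) : hst q t 0 = 1 := by simp [hst]

theorem est_zero (q t : K) : est q t 0 = 1 := by simp [est]

theorem est_one (q t : K) : est q t 1 = C (Mj q t 0)⁻¹ * X 0 := by simp [est, hc_one]

theorem ehz_natCast (n : ℕ) : ehz K (n : ℤ) = eh K n := by simp [ehz]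

theorem ehz_neg (n : ℤ) (h : n < 0) : ehz K n = 0 := by
  rw [ehz, if_neg (by omega)]

/-! ## diagonal operators -/

theorem dg_apply_basis (b : Module.Basis Par K (Sy K)) (f : Par → K) (μ : Par) :
    dg b f (b μ) = f μ • b μ := by
  rw [dg, Module.Basis.constr_basis]

theorem dg_mul (b : Module.Basis Par K (Sy K)) (f g : Par → K) :
    dg b f * dg b g = dg b (fun μ => f μ * g μ) := by
  refine b.ext fun μ => ?_
  rw [Module.End.mul_apply, dg_apply_basis, map_smul, dg_apply_basis, dg_apply_basis, smul_smul,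
    mul_comm]

theorem dg_comm (b : Module.Basis Par K (Sy K)) (f g : Par → K) :
    dg b f * dg b g = dg b g * dg b f := by
  rw [dg_mul, dg_mul]
  congr 1
  funext μ
  ring

theorem dg_one (b : Module.Basis Par K (Sy K)) : dg b (fun _ => (1 : K)) = 1 := by
  refine b.ext fun μ => ?_
  rw [dg_apply_basis]; simp

theorem dg_add (b : Module.Basis Par K (Sy K)) (f g : Par → K) :
    dg b f + dg b g = dg b (fun μ => f μ + g μ) := by
  refine b.ext fun μ => ?_
  rw [LinearMap.add_apply, dg_apply_basis, dg_apply_basis, dg_apply_basis, add_smul]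

theorem dg_smul (b : Module.Basis Par K (Sy K)) (c : K) (f : Par → K) :
    c • dg b f = dg b (fun μ => c * f μ) := by
  refine b.ext fun μ => ?_
  rw [LinearMap.smul_apply, dg_apply_basis, dg_apply_basis, smul_smul]

theorem dg_sum {ι : Type*} (s : Finset ι) (b : Module.Basis Par K (Sy K)) (f : ι → Par → K) :
    ∑ i ∈ s, dg b (f i) = dg b (fun μ => ∑ i ∈ s, f i μ) := by
  refine b.ext fun μ => ?_
  rw [LinearMap.sum_apply, dg_apply_basis, Finset.sum_smul]
  refine Finset.sum_congr rfl fun i _ => ?_
  rw [dg_apply_basis]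

theorem dg_repr (b : Module.Basis Par K (Sy K)) (f : Par → K) (F : Sy K) (μ : Par) :
    b.repr (dg b f F) μ = f μ * b.repr F μ := by
  have : (b.coord μ) ∘ₗ (dg b f) = (f μ) • b.coord μ := by
    refine b.ext fun ν => ?_
    rw [LinearMap.comp_apply, dg_apply_basis, map_smul, LinearMap.smul_apply, Module.Basis.coord_apply,
      Module.Basis.repr_self]
    by_cases h : ν = μ
    · subst h; simp
    · simp [h]
  have h2 := congrArg (fun g => g F) this
  simpa using h2

/-- `D_0` is diagonal -/
theorem Dk_zero_eq_dg {q t : K} {b : Module.Basis Par K (Sy K)} (h : IsE q t b) :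
    Dk q t 0 = dg b (fun μ => 1 - Mj q t 0 * Ps q t μ 0) := by
  refine b.ext fun μ => ?_
  rw [dg_apply_basis, h.eig]

/-- `Delta` is diagonal with eigenvalues `B_mu` -/
theorem Del_eq_dg {q t : K} {b : Module.Basis Par K (Sy K)} (h : IsE q t b)
    (hM : Mj q t 0 ≠ 0) : Del q t = dg b (fun μ => Ps q t μ 0) := by
  refine b.ext fun μ => ?_
  rw [Del, LinearMap.smul_apply, LinearMap.sub_apply, h.eig, dg_apply_basis, Module.End.one_apply,
    sub_smul, one_smul, sub_sub_cancel, smul_smul, ← mul_assoc, inv_mul_cancel₀ hM, one_mul]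

theorem Gn.Mj_ne {q t : K} (h : Gn q t) (j : ℕ) : Mj q t j ≠ 0 := by
  rw [Mj]
  refine mul_ne_zero ?_ ?_
  · intro h1
    have := (h.ind (j + 1) 0 (by
      rw [zpow_zero, mul_one]
      have : q ^ (j + 1) = 1 := (sub_eq_zero.mp h1).symm
      exact_mod_cast this)).1
    omega
  · intro h1
    have := (h.ind 0 (j + 1) (by
      rw [zpow_zero, one_mul]
      have : t ^ (j + 1) = 1 := (sub_eq_zero.mp h1).symm
      exact_mod_cast this)).2
    omega

end

end TH
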