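import Pool.Agent.Helper86.TH.Basic2

/-! # Elementary facts about partitions -/

set_option linter.unusedSectionVars false

namespace TH

open MvPolynomial Finset

theorem Par.anti (μ : Par) {i j : ℕ} (h : i ≤ j) : μ.1 j ≤ μ.1 i := μ.2 h

/-- if `mu_i > 0` then `i < card mu` -/
theorem Par.lt_card_of_pos (μ : Par) {i : ℕ} (h : 0 < μ.1 i) : i < card μ := by
  have h1 : range (i + 1) ⊆ μ.1.support := by
    intro j hj
    rw [mem_range] at hj
    rw [Finsupp.mem_support_iff]
    have := μ.anti (show j ≤ i by omega)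
    omega
  have h2 : ∑ j ∈ range (i + 1), 1 ≤ ∑ j ∈ range (i + 1), μ.1 j := by
    refine Finset.sum_le_sum fun j hj => ?_
    rw [mem_range] at hj
    have := μ.anti (show j ≤ i by omega)
    omega
  have h3 : ∑ j ∈ range (i + 1), μ.1 j ≤ card μ :=
    Finset.sum_le_sum_of_subset h1
  simp at h2
  omega

theorem Par.zero_of_card_le (μ : Par) {i : ℕ} (h : card μ ≤ i) : μ.1 i = 0 := by
  by_contra h1
  have := μ.lt_card_of_pos (Nat.pos_of_ne_zero h1)
  omega

theorem csum_range {R : Type*} [CommRing R] (μ : Par) (g : ℕ → ℕ → R) (N : ℕ)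
    (h : ∀ i, N ≤ i → μ.1 i = 0) :
    csum μ g = ∑ i ∈ range N, ∑ j ∈ range (μ.1 i), g i j := by
  rw [csum]
  refine Finset.sum_subset ?_ ?_
  · intro i hi
    rw [Finsupp.mem_support_iff] at hi
    rw [mem_range]
    by_contra h1
    exact hi (h i (by omega))
  · intro i _ hi
    rw [Finsupp.notMem_support_iff] at hi
    rw [hi]; simp

theorem cprod_range {R : Type*} [CommRing R] (μ : Par) (g : ℕ → ℕ → R) (N : ℕ)
    (h : ∀ i, N ≤ i → μ.1 i = 0) :
    cprod μ g = ∏ i ∈ range N, ∏ j ∈ range (μ.1 i), g i j := by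
  rw [cprod]
  refine Finset.prod_subset ?_ ?_
  · intro i hi
    rw [Finsupp.mem_support_iff] at hi
    rw [mem_range]
    by_contra h1
    exact hi (h i (by omega))
  · intro i _ hi
    rw [Finsupp.notMem_support_iff] at hi
    rw [hi]; simp

theorem card_range (μ : Par) (N : ℕ) (h : ∀ i, N ≤ i → μ.1 i = 0) :
    card μ = ∑ i ∈ range N, μ.1 i := by
  rw [card]
  refine Finset.sum_subset ?_ ?_
  · intro i hi
    rw [Finsupp.mem_support_iff] at hi
    rw [mem_range]
    by_contra h1
    exact hi (h i (by omega))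
  · intro i _ hi
    rwa [Finsupp.notMem_support_iff] at hi

theorem adb_iff (μ : Par) (i : ℕ) : Adb μ i ↔ ∀ j, j < i → μ.1 i < μ.1 j := by
  constructor
  · intro h j hj
    have := h hj.le
    rw [Finsupp.add_apply, Finsupp.add_apply, Finsupp.single_eq_same,
      Finsupp.single_eq_of_ne (by omega)] at this
    omega
  · intro h a c hac
    rw [Finsupp.add_apply, Finsupp.add_apply]
    rcases eq_or_ne c i with rfl | hc
    · rcases eq_or_ne a c with rfl | ha
      · exact le_rfl
      · rw [Finsupp.single_eq_same, Finsupp.single_eq_of_ne ha]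
        have := h a (by omega)
        omega
    · rw [Finsupp.single_eq_of_ne hc]
      have := μ.anti hac
      omega

theorem up_val {μ : Par} {i : ℕ} (h : Adb μ i) : (up μ i).1 = μ.1 + Finsupp.single i 1 := by
  rw [up, dif_pos h]

theorem up_apply_same {μ : Par} {i : ℕ} (h : Adb μ i) : (up μ i).1 i = μ.1 i + 1 := by
  rw [up_val h]; simp

theorem up_apply_ne {μ : Par} {i j : ℕ} (h : Adb μ i) (hj : j ≠ i) : (up μ i).1 j = μ.1 j := by
  rw [up_val h]; simp [hj]

theorem mem_ads {μ : Par} {i : ℕ} : i ∈ ads μ ↔ Adb μ i := by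
  classical
  rw [ads, Finset.mem_filter, mem_range]
  refine ⟨fun h => h.2, fun h => ⟨?_, h⟩⟩
  rcases Nat.eq_zero_or_pos i with rfl | hi
  · omega
  · have h1 := (adb_iff μ i).1 h (i - 1) (by omega)
    have := μ.lt_card_of_pos (show 0 < μ.1 (i - 1) by omega)
    omega

theorem csum_up {R : Type*} [CommRing R] {μ : Par} {i : ℕ} (h : Adb μ i) (g : ℕ → ℕ → R) :
    csum (up μ i) g = csum μ g + g i (μ.1 i) := by
  set N := card μ + card (up μ i) + i + 1
  have hN : i ∈ range N := by rw [mem_range]; omega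
  rw [csum_range (up μ i) g N (fun j hj => Par.zero_of_card_le _ (by omega)),
    csum_range μ g N (fun j hj => Par.zero_of_card_le _ (by omega)),
    ← Finset.add_sum_erase _ _ hN, ← Finset.add_sum_erase _ _ hN, up_apply_same h,
    Finset.sum_range_succ]
  have : ∑ x ∈ (range N).erase i, ∑ j ∈ range ((up μ i).1 x), g x j
      = ∑ x ∈ (range N).erase i, ∑ j ∈ range (μ.1 x), g x j := by
    refine Finset.sum_congr rfl fun x hx => ?_
    rw [up_apply_ne h (Finset.ne_of_mem_erase hx)]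
  rw [this]; ring

theorem cprod_up {R : Type*} [CommRing R] {μ : Par} {i : ℕ} (h : Adb μ i) (g : ℕ → ℕ → R) :
    cprod (up μ i) g = cprod μ g * g i (μ.1 i) := by
  set N := card μ + card (up μ i) + i + 1
  have hN : i ∈ range N := by rw [mem_range]; omega
  rw [cprod_range (up μ i) g N (fun j hj => Par.zero_of_card_le _ (by omega)),
    cprod_range μ g N (fun j hj => Par.zero_of_card_le _ (by omega)),
    ← Finset.mul_prod_erase _ _ hN, ← Finset.mul_prod_erase _ _ hN, up_apply_same h,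
    Finset.prod_range_succ]
  have : ∏ x ∈ (range N).erase i, ∏ j ∈ range ((up μ i).1 x), g x j
      = ∏ x ∈ (range N).erase i, ∏ j ∈ range (μ.1 x), g x j := by
    refine Finset.prod_congr rfl fun x hx => ?_
    rw [up_apply_ne h (Finset.ne_of_mem_erase hx)]
  rw [this]; ring

theorem card_up {μ : Par} {i : ℕ} (h : Adb μ i) : card (up μ i) = card μ + 1 := by
  set N := card μ + card (up μ i) + i + 1
  have hN : i ∈ range N := by rw [mem_range]; omega
  rw [card_range (up μ i) N (fun j hj => Par.zero_of_card_le _ (by omega)),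
    card_range μ N (fun j hj => Par.zero_of_card_le _ (by omega)),
    ← Finset.add_sum_erase _ _ hN, ← Finset.add_sum_erase _ _ hN, up_apply_same h]
  have : ∑ x ∈ (range N).erase i, (up μ i).1 x = ∑ x ∈ (range N).erase i, μ.1 x := by
    refine Finset.sum_congr rfl fun x hx => ?_
    rw [up_apply_ne h (Finset.ne_of_mem_erase hx)]
  rw [this]; ring

theorem rmb_iff (μ : Par) (i : ℕ) : Rmb μ i ↔ ∀ j, i < j → μ.1 j < μ.1 i := by
  constructor
  · rintro ⟨h0, h⟩ j hj
    have := h hj.le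
    rw [Finsupp.tsub_apply, Finsupp.tsub_apply, Finsupp.single_eq_same,
      Finsupp.single_eq_of_ne (by omega)] at this
    omega
  · intro h
    have h0 : 0 < μ.1 i := by have := h (i + 1) (by omega); omega
    refine ⟨h0, fun a c hac => ?_⟩
    rw [Finsupp.tsub_apply, Finsupp.tsub_apply]
    rcases eq_or_ne a i with rfl | ha
    · rcases eq_or_ne c a with rfl | hc
      · exact le_rfl
      · rw [Finsupp.single_eq_same, Finsupp.single_eq_of_ne hc]
        have := h c (by omega)
        omega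
    · rw [Finsupp.single_eq_of_ne ha]
      have := μ.anti hac
      omega

theorem dn_val {μ : Par} {i : ℕ} (h : Rmb μ i) : (dn μ i).1 = μ.1 - Finsupp.single i 1 := by
  rw [dn, dif_pos h]

theorem dn_apply_same {μ : Par} {i : ℕ} (h : Rmb μ i) : (dn μ i).1 i = μ.1 i - 1 := by
  rw [dn_val h]; simp

theorem dn_apply_ne {μ : Par} {i j : ℕ} (h : Rmb μ i) (hj : j ≠ i) : (dn μ i).1 j = μ.1 j := by
  rw [dn_val h]; simp [hj]

theorem mem_rms {μ : Par} {i : ℕ} : i ∈ rms μ ↔ Rmb μ i := by
  classical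
  rw [rms, Finset.mem_filter, mem_range]
  exact ⟨fun h => h.2, fun h => ⟨μ.lt_card_of_pos h.1, h⟩⟩

theorem adb_dn {μ : Par} {i : ℕ} (h : Rmb μ i) : Adb (dn μ i) i := by
  rw [adb_iff]
  intro j hj
  rw [dn_apply_same h, dn_apply_ne h (by omega)]
  have := μ.anti hj.le
  have := h.1
  omega

theorem up_dn {μ : Par} {i : ℕ} (h : Rmb μ i) : up (dn μ i) i = μ := by
  apply Subtype.ext
  rw [up_val (adb_dn h), dn_val h]
  ext j
  rw [Finsupp.add_apply, Finsupp.tsub_apply]
  rcases eq_or_ne j i with rfl | hj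
  · rw [Finsupp.single_eq_same]; have := h.1; omega
  · rw [Finsupp.single_eq_of_ne hj]; omega

theorem rmb_up {μ : Par} {i : ℕ} (h : Adb μ i) : Rmb (up μ i) i := by
  rw [rmb_iff]
  intro j hj
  rw [up_apply_same h, up_apply_ne h (by omega)]
  have := μ.anti hj.le
  omega

theorem dn_up {μ : Par} {i : ℕ} (h : Adb μ i) : dn (up μ i) i = μ := by
  apply Subtype.ext
  rw [dn_val (rmb_up h), up_val h]
  ext j
  simp

theorem card_dn {μ : Par} {i : ℕ} (h : Rmb μ i) : card (dn μ i) + 1 = card μ := by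
  rw [← card_up (adb_dn h), up_dn h]

/-- the empty partition -/
def P0 : Par := ⟨0, fun _ _ _ => le_rfl⟩

theorem card_P0 : card P0 = 0 := by simp [card, P0]

theorem eq_P0_of_card {μ : Par} (h : card μ = 0) : μ = P0 := by
  apply Subtype.ext
  ext i
  exact μ.zero_of_card_le (by omega)

theorem le_iff {μ ν : Par} : μ ≤ ν ↔ ∀ i, μ.1 i ≤ ν.1 i := Iff.rfl

theorem le_up (μ : Par) (i : ℕ) (h : Adb μ i) : μ ≤ up μ i := by
  intro j
  rw [up_val h, Finsupp.add_apply]
  omega

theorem card_mono {μ ν : Par} (h : μ ≤ ν) : card μ ≤ card ν := by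
  set N := card μ + card ν
  rw [card_range μ N (fun j hj => Par.zero_of_card_le _ (by omega)),
    card_range ν N (fun j hj => Par.zero_of_card_le _ (by omega))]
  exact Finset.sum_le_sum fun i _ => h i

theorem eq_of_le_card {μ ν : Par} (h : μ ≤ ν) (hc : card ν ≤ card μ) : μ = ν := by
  set N := card μ + card ν with hN
  have h1 : ∑ i ∈ range N, μ.1 i = ∑ i ∈ range N, ν.1 i := by
    rw [← card_range μ N (fun j hj => Par.zero_of_card_le _ (by omega)),
      ← card_range ν N (fun j hj => Par.zero_of_card_le _ (by omega))]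
    exact le_antisymm (card_mono h) hc
  have h2 := (Finset.sum_eq_sum_iff_of_le (fun i _ => h i)).1 h1
  apply Subtype.ext
  ext i
  by_cases hi : i < N
  · exact h2 i (mem_range.2 hi)
  · rw [Par.zero_of_card_le μ (by omega), Par.zero_of_card_le ν (by omega)]

/-- a partition strictly below `nu` lies below `nu` with one box removed -/
theorem exists_rms_of_lt {μ ν : Par} (h : μ ≤ ν) (hne : μ ≠ ν) :
    ∃ i ∈ rms ν, μ ≤ dn ν i := by
  classical
  have h1 : ∃ i, μ.1 i < ν.1 i := by
    by_contra h2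
    push Not at h2
    apply hne
    apply Subtype.ext
    ext i
    exact le_antisymm (h i) (h2 i)
  obtain ⟨i, hi⟩ := h1
  -- the last row with the same length as row `i`
  have hbdd : ∀ j, ν.1 j = ν.1 i → j ≤ card ν := by
    intro j hj
    exact (ν.lt_card_of_pos (i := j) (by omega)).le
  set S := (range (card ν + 1)).filter (fun j => ν.1 j = ν.1 i) with hS
  have hSne : S.Nonempty := ⟨i, by
    rw [hS, Finset.mem_filter, mem_range]
    exact ⟨by have := hbdd i rfl; omega, rfl⟩⟩
  set m := S.max' hSne with hm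
  have hmS : m ∈ S := S.max'_mem hSne
  have hmi : ν.1 m = ν.1 i := (Finset.mem_filter.1 hmS).2
  have him : i ≤ m := S.le_max' i (by
    rw [hS, Finset.mem_filter, mem_range]
    exact ⟨by have := hbdd i rfl; omega, rfl⟩)
  have hR : Rmb ν m := by
    rw [rmb_iff]
    intro j hj
    have h3 := ν.anti hj.le
    rcases Nat.lt_or_ge (ν.1 j) (ν.1 m) with h4 | h4
    · exact h4
    · exfalso
      have h5 : ν.1 j = ν.1 i := by omega
      have h6 : j ∈ S := by
        rw [hS, Finset.mem_filter, mem_range]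
        exact ⟨by have := hbdd j h5; omega, h5⟩
      have := S.le_max' j h6
      omega
  refine ⟨m, mem_rms.2 hR, fun j => ?_⟩
  rcases eq_or_ne j m with rfl | hj
  · change μ.1 m ≤ (dn ν m).1 m
    rw [dn_apply_same hR]
    have := μ.anti him
    omega
  · change μ.1 j ≤ (dn ν m).1 j
    rw [dn_apply_ne hR hj]
    exact h j

theorem exists_ads_of_card {μ ν : Par} (h : μ ≤ ν) (hc : card ν = card μ + 1) :
    ∃ i ∈ ads μ, ν = up μ i := by
  obtain ⟨i, hi, hle⟩ := exists_rms_of_lt h (by rintro rfl; omega)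
  have hR := mem_rms.1 hi
  have h1 := card_dn hR
  have h2 := eq_of_le_card hle (by omega)
  subst h2
  exact ⟨i, mem_ads.2 (adb_dn hR), (up_dn hR).symm⟩

section
variable {K : Type*} [Field K] [CharZero K]

theorem Ps_up (q t : K) {μ : Par} {i : ℕ} (h : Adb μ i) (k : ℕ) :
    Ps q t (up μ i) k = Ps q t μ k + zc q t μ i ^ (k + 1) := by
  rw [Ps, csum_up h, Ps, zc, mul_comm (q ^ μ.1 i)]

theorem Ps_P0 (q t : K) (k : ℕ) : Ps q t P0 k = 0 := by simp [Ps, csum, P0]

theorem Gn.zc_ne {q t : K} (h : Gn q t) (μ : Par) (i : ℕ) : zc q t μ i ≠ 0 :=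
  mul_ne_zero (pow_ne_zero _ h.t0) (pow_ne_zero _ h.q0)

/-- telescoping -/
theorem one_sub_Mj_Ps (q t : K) (μ : Par) (k N : ℕ) (h : ∀ i, N ≤ i → μ.1 i = 0) :
    1 - Mj q t k * Ps q t μ k
      = (t ^ N) ^ (k + 1) + (1 - t ^ (k + 1)) * ∑ i ∈ range N, zc q t μ i ^ (k + 1) := by
  rw [Ps, csum_range μ _ N h, Mj]
  have h1 : ∀ i, (1 - q ^ (k + 1)) * ∑ j ∈ range (μ.1 i), (q ^ j * t ^ i) ^ (k + 1)
      = (t ^ i) ^ (k + 1) - zc q t μ i ^ (k + 1) := by
    intro i
    have h2 : ∀ n : ℕ, (1 - q ^ (k + 1)) * ∑ j ∈ range n, (q ^ j * t ^ i) ^ (k + 1)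
        = (t ^ i) ^ (k + 1) - (t ^ i * q ^ n) ^ (k + 1) := by
      intro n
      induction n with
      | zero => simp
      | succ n ih =>
        rw [Finset.sum_range_succ, mul_add, ih]
        ring
    exact h2 _
  have h3 : (1 - q ^ (k + 1)) * ∑ i ∈ range N, ∑ j ∈ range (μ.1 i), (q ^ j * t ^ i) ^ (k + 1)
      = ∑ i ∈ range N, ((t ^ i) ^ (k + 1) - zc q t μ i ^ (k + 1)) := by
    rw [Finset.mul_sum]
    exact Finset.sum_congr rfl fun i _ => h1 i
  have h4 : ∀ N : ℕ, (1 - t ^ (k + 1)) * ∑ i ∈ range N, (t ^ i) ^ (k + 1)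
      = 1 - (t ^ N) ^ (k + 1) := by
    intro N
    induction N with
    | zero => simp
    | succ n ih =>
      rw [Finset.sum_range_succ, mul_add, ih]
      ring
  have h5 := h4 N
  rw [Finset.sum_sub_distrib] at h3
  calc 1 - (1 - q ^ (k + 1)) * (1 - t ^ (k + 1))
          * ∑ i ∈ range N, ∑ j ∈ range (μ.1 i), (q ^ j * t ^ i) ^ (k + 1)
      = 1 - (1 - t ^ (k + 1)) * ((1 - q ^ (k + 1))
          * ∑ i ∈ range N, ∑ j ∈ range (μ.1 i), (q ^ j * t ^ i) ^ (k + 1)) := by ring
    _ = 1 - (1 - t ^ (k + 1)) * ∑ i ∈ range N, (t ^ i) ^ (k + 1)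
          + (1 - t ^ (k + 1)) * ∑ i ∈ range N, zc q t μ i ^ (k + 1) := by rw [h3]; ring
    _ = _ := by rw [h5]; ring

end

end TH
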