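import Mathlib

/-!
# Definitions for the scalar product identity between `e_{m,km+n}` and `Theta_{e_k} e_{n,m}`

`Sy K = K[p_1, p_2, ...]` is the ring of symmetric functions over a field `K` of characteristic
zero; the variable `X j` is the power sum `p_{j+1}`.
-/

namespace TH

open MvPolynomial Finset

noncomputable section

/-! ## symmetric functions -/

/-- symmetric functions over `K`; the variable `X j` is the power sum `p_{j+1}` -/
abbrev Sy (K : Type*) [Field K] := MvPolynomial ℕ K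

/-- `hc c n` is the complete homogeneous function `h_n` of the alphabet whose power sums are
`p_{j+1} = c j`: `h_0 = 1`, `(n+1) h_{n+1} = sum_{i <= n} p_{i+1} h_{n-i}`. -/
def hc {R : Type*} [CommRing R] [Algebra ℚ R] (c : ℕ → R) : ℕ → R
  | 0 => 1
  | (n + 1) => (((n : ℚ) + 1)⁻¹) • ∑ i : Fin (n + 1), c i * hc c (n - i)

section
variable (K : Type*) [Field K] [CharZero K]

/-- `h_n` -/
def hh (n : ℕ) : Sy K := hc (fun j => (X j : Sy K)) n

/-- `e_n` -/
def ee (n : ℕ) : Sy K := hc (fun j => (-1) ^ j * (X j : Sy K)) n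

/-- `(-1)^n e_n = h_n[-X]` -/
def eh (n : ℕ) : Sy K := hc (fun j => -(X j : Sy K)) n

/-- `(-1)^n e_n` for an integer `n`, zero for `n < 0` -/
def ehz (n : ℤ) : Sy K := if 0 ≤ n then eh K n.toNat else 0

/-- `h_n` for an integer `n`, zero for `n < 0` -/
def hz (n : ℤ) : Sy K := if 0 ≤ n then hh K n.toNat else 0

/-- The Schur function of the sequence `lam 0, ..., lam (N-1)`, by the Jacobi-Trudi formula
`det (h_{lam_i - i + j})`. -/
def schur (N : ℕ) (lam : ℕ → ℕ) : Sy K :=
  Matrix.det (Matrix.of fun i j : Fin N => hz K ((lam i : ℤ) - (i : ℤ) + (j : ℤ)))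

end

section
variable {K : Type*} [Field K] [CharZero K]

/-- the weight `prod_j s_j! (w j)^{s_j}` -/
def wt (w : ℕ → K) (s : ℕ →₀ ℕ) : K := s.prod (fun j a => (a.factorial : K) * w j ^ a)

/-- the symmetric bilinear form for which the monomials in the `X j` are orthogonal and the
monomial with exponent `s` has square `wt w s` -/
def bf (w : ℕ → K) : Sy K →ₗ[K] Sy K →ₗ[K] K :=
  (MvPolynomial.basisMonomials ℕ K).constr K
    (fun s => wt w s • (MvPolynomial.lcoeff K s : Sy K →ₗ[K] K))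

/-- the Hall scalar product: `p_lambda` are orthogonal, with squares `z_lambda` -/
def hall : Sy K →ₗ[K] Sy K →ₗ[K] K := bf (fun j => ((j : K) + 1))

/-- the algebra homomorphism `p_{j+1} ↦ c j` -/
def ev (c : ℕ → K) : Sy K →ₐ[K] K := aeval c

/-- `F ↦ F[1 - u]` -/
def ep (u : K) : Sy K →ₐ[K] K := ev (fun j => 1 - u ^ (j + 1))

/-- `M_{j+1} = (1 - q^{j+1}) (1 - t^{j+1})` -/
def Mj (q t : K) (j : ℕ) : K := (1 - q ^ (j + 1)) * (1 - t ^ (j + 1))

/-- `F ↦ F[X + M w]`, a polynomial in `w` -/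
def tauA (q t : K) : Sy K →ₐ[K] Polynomial (Sy K) :=
  aeval (fun j => Polynomial.C (X j) + Polynomial.C (C (Mj q t j)) * Polynomial.X ^ (j + 1))

/-- the coefficient of `w^i` in `F[X + M w]` -/
def tau (q t : K) (i : ℕ) : Module.End K (Sy K) :=
  ((Polynomial.lcoeff (Sy K) i).restrictScalars K) ∘ₗ (tauA q t).toLinearMap

/-- multiplication by `F` -/
def mu (F : Sy K) : Module.End K (Sy K) := LinearMap.mulLeft K F

/-- the linear map `sum_i a_i w^i ↦ sum_i g i * a_i` -/
def pairS (g : ℕ → Sy K) : Polynomial (Sy K) →ₗ[K] Sy K where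
  toFun p := p.sum (fun i a => g i * a)
  map_add' p p' := Polynomial.sum_add_index _ _ _ (fun i => by simp) (fun i a b => by ring)
  map_smul' c p := by
    rw [RingHom.id_apply, Polynomial.sum_def, Polynomial.sum_def, Finset.smul_sum]
    by_cases hc : c = 0
    · subst hc; simp
    · have : (c • p).support = p.support := by
        ext i
        simp [Polynomial.mem_support_iff, hc]
      rw [this]
      refine Finset.sum_congr rfl fun i _ => ?_
      rw [Polynomial.coeff_smul, mul_smul_comm]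

/-- the vertex operator `D_k F = sum_i (-1)^{k+i} e_{k+i} (coefficient of w^i in F[X + M w])` -/
def Dk (q t : K) (k : ℤ) : Module.End K (Sy K) :=
  pairS (fun i => ehz K (k + i)) ∘ₗ (tauA q t).toLinearMap

/-- the derivative with respect to `p_1` -/
def pd : Module.End K (Sy K) := (MvPolynomial.pderiv (R := K) (0 : ℕ)).toLinearMap

/-- `omega_j = h_j[-M]` -/
def om (q t : K) (j : ℕ) : K := hc (fun i => -(Mj q t i)) j

/-- `e_j[X/M]` -/
def est (q t : K) (j : ℕ) : Sy K := hc (fun i => (-1) ^ i * (C (Mj q t i)⁻¹ * X i)) j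

/-- `h_j[X/M]` -/
def hst (q t : K) (j : ℕ) : Sy K := hc (fun i => (C (Mj q t i)⁻¹ * X i : Sy K)) j

/-- `Delta = (1 - D_0) / M` -/
def Del (q t : K) : Module.End K (Sy K) := (Mj q t 0)⁻¹ • (1 - Dk q t 0)

/-- `Bn 0 =` multiplication by `e_1`, `Bn (b+1) = [Delta, Bn b]` -/
def Bn (q t : K) : ℕ → Module.End K (Sy K)
  | 0 => mu (X 0)
  | (b + 1) => Del q t * Bn q t b - Bn q t b * Del q t

/-- `BS 0 = e_1 - 1`, `BS b = Bn b` for `b >= 1` -/
def BS (q t : K) (b : ℕ) : Module.End K (Sy K) := if b = 0 then Bn q t 0 - 1 else Bn q t b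

/-- homogeneous of degree `n` (`p_{j+1}` has degree `j + 1`) -/
def WH (n : ℕ) (F : Sy K) : Prop := IsWeightedHomogeneous (fun j : ℕ => j + 1) F n

end

/-! ## partitions -/

/-- partitions: weakly decreasing finitely supported sequences `mu_0 >= mu_1 >= ...` -/
abbrev Par := {f : ℕ →₀ ℕ // Antitone f}

/-- the number of cells -/
def card (μ : Par) : ℕ := ∑ i ∈ μ.1.support, μ.1 i

/-- the product of `g i j` over the cells (row `i`, column `j`) -/
def cprod {R : Type*} [CommRing R] (μ : Par) (g : ℕ → ℕ → R) : R :=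
  ∏ i ∈ μ.1.support, ∏ j ∈ range (μ.1 i), g i j

/-- the sum of `g i j` over the cells (row `i`, column `j`) -/
def csum {R : Type*} [CommRing R] (μ : Par) (g : ℕ → ℕ → R) : R :=
  ∑ i ∈ μ.1.support, ∑ j ∈ range (μ.1 i), g i j

/-- a box can be added in row `i` -/
def Adb (μ : Par) (i : ℕ) : Prop := Antitone ⇑(μ.1 + Finsupp.single i 1 : ℕ →₀ ℕ)

/-- a box can be removed from row `i` -/
def Rmb (μ : Par) (i : ℕ) : Prop := 0 < μ.1 i ∧ Antitone ⇑(μ.1 - Finsupp.single i 1 : ℕ →₀ ℕ)

open Classical in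
/-- add a box in row `i` (if possible) -/
def up (μ : Par) (i : ℕ) : Par := if h : Adb μ i then ⟨μ.1 + Finsupp.single i 1, h⟩ else μ

open Classical in
/-- remove a box from row `i` (if possible) -/
def dn (μ : Par) (i : ℕ) : Par := if h : Rmb μ i then ⟨μ.1 - Finsupp.single i 1, h.2⟩ else μ

open Classical in
/-- rows where a box can be added -/
def ads (μ : Par) : Finset ℕ := (range (card μ + 1)).filter (Adb μ)

open Classical in
/-- rows from which a box can be removed -/
def rms (μ : Par) : Finset ℕ := (range (card μ)).filter (Rmb μ)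

section
variable {K : Type*} [Field K] [CharZero K]

/-- `p_{k+1}[B_mu] = sum over the cells of (q^{column} t^{row})^{k+1}` -/
def Ps (q t : K) (μ : Par) (k : ℕ) : K := csum μ (fun i j => (q ^ j * t ^ i) ^ (k + 1))

/-- the monomial of the box added in row `i` -/
def zc (q t : K) (μ : Par) (i : ℕ) : K := t ^ i * q ^ μ.1 i

/-- `prod (1 - u q^{column} t^{row})` over the cells -/
def Nu (q t u : K) (μ : Par) : K := cprod μ (fun i j => 1 - u * (q ^ j * t ^ i))

/-- `Pi_mu = prod (1 - q^{column} t^{row})` over the cells other than `(0,0)` -/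
def Pim (q t : K) (μ : Par) : K :=
  cprod μ (fun i j => if i = 0 ∧ j = 0 then 1 else 1 - q ^ j * t ^ i)

/-- generic parameters -/
structure Gn (q t : K) : Prop where
  q0 : q ≠ 0
  t0 : t ≠ 0
  ind : ∀ a b : ℤ, q ^ a * t ^ b = 1 → a = 0 ∧ b = 0
  inj : ∀ μ ν : Par, Ps q t μ 0 = Ps q t ν 0 → μ = ν

/-- normalised eigenvectors of `D_0` -/
structure IsE (q t : K) (H : Par → Sy K) : Prop where
  hom : ∀ μ, WH (card μ) (H μ)
  eig : ∀ μ, Dk q t 0 (H μ) = (1 - Mj q t 0 * Ps q t μ 0) • H μ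
  eps : ∀ μ, ep (0 : K) (H μ) = 1

/-- the operator that is diagonal in the basis `b` with eigenvalues `f` -/
def dg (b : Module.Basis Par K (Sy K)) (f : Par → K) : Module.End K (Sy K) :=
  b.constr K (fun μ => f μ • b μ)

/-- the Macdonald basis with its Pieri rule -/
structure MB (q t : K) (b : Module.Basis Par K (Sy K)) : Prop extends IsE q t b where
  pieri : ∀ μ, ∃ d : ℕ → K, X 0 * b μ = ∑ i ∈ ads μ, d i • b (up μ i) ∧ ∑ i ∈ ads μ, d i = 1 ∧
    ∀ r : ℕ, ∑ i ∈ ads μ, d i * zc q t μ i ^ (r + 1) = hc (fun j => 1 - Mj q t j * Ps q t μ j) r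

/-- `(-1)^r e_r[B]` as diagonal operator -/
def Nn (q t : K) (b : Module.Basis Par K (Sy K)) (r : ℕ) : Module.End K (Sy K) :=
  dg b (fun μ => hc (fun j => -(Ps q t μ j)) r)

/-- `h_s[B]` as diagonal operator -/
def Hn (q t : K) (b : Module.Basis Par K (Sy K)) (s : ℕ) : Module.End K (Sy K) :=
  dg b (fun μ => hc (fun j => Ps q t μ j) s)

/-- `e_r[B]` as diagonal operator -/
def En (q t : K) (b : Module.Basis Par K (Sy K)) (r : ℕ) : Module.End K (Sy K) :=
  dg b (fun μ => hc (fun j => (-1) ^ j * Ps q t μ j) r)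

/-- `sum_{a + r = k} e_a[X/M] (-1)^r Delta_{e_r}` -/
def Gk (q t : K) (b : Module.Basis Par K (Sy K)) (k : ℕ) : Module.End K (Sy K) :=
  ∑ p ∈ antidiagonal k, mu (est q t p.1) * Nn q t b p.2

/-- the coefficient of `v^j` in `N(v) e_i[X/M] N(v)^{-1}` -/
def Yy (q t : K) (b : Module.Basis Par K (Sy K)) (i j : ℕ) : Module.End K (Sy K) :=
  ∑ p ∈ antidiagonal j, Nn q t b p.1 * mu (est q t i) * Hn q t b p.2

/-! ## interpolation points -/

/-- the point `p_{k+1} = 1 - (1 - q^{-k-1}) (1 - t^{-k-1}) sum over cells (q^{col} t^{row})^{-k-1}` -/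
def pt (q t : K) (μ : Par) (k : ℕ) : K := 1 - Mj q⁻¹ t⁻¹ k * Ps q⁻¹ t⁻¹ μ k

/-- the partial fraction coefficients for `prod (1 - t x_i w) / (1 - x_i w)` -/
def AA (t : K) (N : ℕ) (x : ℕ → K) (i : ℕ) : K :=
  (1 - t) * ∏ l ∈ (range N).erase i, (x i - t * x l) / (x i - x l)

/-- the coefficient of the removal of a box from row `i` -/
def rho (q t : K) (N : ℕ) (μ : Par) (i : ℕ) : K :=
  (1 - t) * (1 - t / t ^ N * zc q t μ i) *
    ∏ j ∈ (range N).erase i,
      (1 - t * zc q t μ i / zc q t μ j) / (1 - zc q t μ i / zc q t μ j)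

/-- the Pieri coefficient for adding a box in row `i` -/
def rr (q t : K) (N : ℕ) (μ : Par) (i : ℕ) : K :=
  (1 - t) / (zc q t μ i - t ^ N) *
    ∏ j ∈ (range N).erase i,
      (1 - t * zc q t μ j / zc q t μ i) / (1 - zc q t μ j / zc q t μ i)

/-- the ratio of the two Pieri coefficients -/
def kap (q t : K) (N : ℕ) (μ : Par) (i : ℕ) : K :=
  -(q * t * zc q t μ i) / ((1 - t ^ N / zc q t μ i) * (1 - t / t ^ N * q * zc q t μ i)) *
    ∏ j ∈ (range N).erase i,
      ((1 - t * zc q t μ j / zc q t μ i) * (1 - q * zc q t μ i / zc q t μ j)) /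
        ((1 - zc q t μ j / zc q t μ i) * (1 - q * t * zc q t μ i / zc q t μ j))

/-! ## words -/

/-- `F ↦ F[X - z]`, a polynomial in `z` -/
def sgA : Sy K →ₐ[K] Polynomial (Sy K) :=
  aeval (fun j => Polynomial.C (X j) - Polynomial.X ^ (j + 1))

/-- `F ↦ F[-z_0 - ... - z_{m-1}]` -/
def evz (K : Type*) [Field K] [CharZero K] (m : ℕ) : Sy K →ₐ[K] MvPolynomial (Fin m) K :=
  aeval (fun j => -∑ i : Fin m, (X i : MvPolynomial (Fin m) K) ^ (j + 1))

/-- The coefficient of `z^beta` in `prod_{i < j} omega(z_i / z_j)` (`z_0` is the variable of the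
operator which acts first). -/
def ct (q t : K) : (m : ℕ) → (Fin m → ℤ) → K
  | 0, _ => 1
  | (m + 1), β =>
      if 0 ≤ β 0 then
        ∑ j ∈ Finset.piAntidiag (univ : Finset (Fin m)) (β 0).toNat,
          (∏ i, om q t (j i)) * ct q t m (fun i => β i.succ + (j i : ℤ))
      else 0

/-- The coefficient of `z^beta` in `prod_{i < j} omega(z_i / z_j) * prod_i 1 / (1 - z_i)`. -/
def tp (q t : K) : (m : ℕ) → (Fin m → ℤ) → K
  | 0, _ => 1
  | (m + 1), β =>
      ∑ y ∈ range (β 0 + 1).toNat,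
        ∑ j ∈ Finset.piAntidiag (univ : Finset (Fin m)) y,
          (∏ i, om q t (j i)) * tp q t m (fun i => β i.succ + (j i : ℤ))

/-- the linear functional `z^alpha ↦ ct (L - alpha)` -/
def ctL (q t : K) (m : ℕ) (L : Fin m → ℤ) (P : MvPolynomial (Fin m) K) : K :=
  ∑ α ∈ P.support, P.coeff α * ct q t m (fun i => L i - (α i : ℤ))

/-- `D_{L_{m-1}} ... D_{L_1} D_{L_0} 1` -/
def Vm (q t : K) (m : ℕ) (L : Fin m → ℤ) : Sy K :=
  (((List.ofFn L).reverse.map (fun x => Dk q t x)).prod : Module.End K (Sy K)) 1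

/-- `BS_{b_0} BS_{b_1} ... BS_{b_{m-1}}` -/
def Bm (q t : K) (m : ℕ) (b : Fin m → ℕ) : Module.End K (Sy K) :=
  ((List.ofFn b).map (fun x => BS q t x)).prod

/-! ## families of operators -/

/-- linear combinations of words of length `m` in the `D_k`, with simultaneous shift -/
def WF (q t : K) (m : ℕ) : Submodule K (ℤ → Module.End K (Sy K)) :=
  Submodule.span K {f | ∃ L : List ℤ, L.length = m ∧
    f = fun k => (L.map (fun x => Dk q t (x + k))).prod}

/-- pairs: a word in the `D_k` (with simultaneous shift), the reversed word in the `BS_b` -/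
def WP (q t : K) (m n : ℕ) : Submodule K ((ℤ → Module.End K (Sy K)) × Module.End K (Sy K)) :=
  Submodule.span K {p | ∃ L : List ℕ, L.length = m ∧ L.sum = n ∧
    p = (fun k => (L.map (fun x => Dk q t ((x : ℤ) + k))).prod,
      (L.reverse.map (fun x => BS q t x)).prod)}

/-- `C_0 = d/dp_1`, `C_{a+1} = [C_a, Delta]` -/
def Cc (q t : K) : ℕ → Module.End K (Sy K)
  | 0 => pd
  | (a + 1) => Cc q t a * Del q t - Del q t * Cc q t a

/-- admissible splittings -/
def Adm (m n a b c d : ℕ) : Prop := a + c = m ∧ b + d = n ∧ a * d = b * c + Nat.gcd m n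

/-- the commutator divided by `M` -/
def cm (q t : K) (U V : Module.End K (Sy K)) : Module.End K (Sy K) :=
  (Mj q t 0)⁻¹ • (U * V - V * U)

/-- the families `Q_{m,n}` -/
structure QF (q t : K) (Q : ℕ → ℕ → Module.End K (Sy K)) : Prop where
  q10 : Q 1 0 = Dk q t 0
  q01 : Q 0 1 = -mu (X 0)
  rc : ∀ m n : ℕ, 0 < m → 0 < n → ∃ a b c d : ℕ, Adm m n a b c d ∧
    Q m n = cm q t (Q c d) (Q a b)

/-- every admissible splitting computes `Q_{m,n}` -/
def IND (q t : K) (Q : ℕ → ℕ → Module.End K (Sy K)) : Prop :=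
  ∀ m n : ℕ, 0 < m → 0 < n → ∀ a b c d : ℕ, Adm m n a b c d → Q m n = cm q t (Q c d) (Q a b)

/-- the product of the boxes as diagonal operator -/
def nab (q t : K) (b : Module.Basis Par K (Sy K)) : Module.End K (Sy K) :=
  dg b (fun μ => cprod μ (fun i j => q ^ j * t ^ i))

/-- the inverse of `nab` -/
def nabi (q t : K) (b : Module.Basis Par K (Sy K)) : Module.End K (Sy K) :=
  dg b (fun μ => (cprod μ (fun i j => q ^ j * t ^ i))⁻¹)

end

/-! ## dominance and Haiman's characterisation of the modified Macdonald polynomials -/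

/-- `Dom f g`: `g` dominates `f` -/
def Dom (f g : ℕ → ℕ) : Prop := ∀ k, ∑ i ∈ range k, f i ≤ ∑ i ∈ range k, g i

/-- the length of column `j` -/
def cnj (μ : Par) (j : ℕ) : ℕ := (μ.1.support.filter (fun i => j < μ.1 i)).card

section
variable {K : Type*} [Field K] [CharZero K]

/-- `F ↦ F[X (1 - q)]` -/
def plq (q : K) : Sy K →ₐ[K] Sy K := aeval (fun j => C (1 - q ^ (j + 1)) * X j)

/-- the span of the Schur functions of the partitions of `n` which dominate `f` -/
def SpD (K : Type*) [Field K] [CharZero K] (n : ℕ) (f : ℕ → ℕ) : Submodule K (Sy K) :=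
  Submodule.span K {s | ∃ ν : Par, card ν = n ∧ Dom f ν.1 ∧ s = schur K n ν.1}

/-- Haiman's characterisation of the modified Macdonald polynomials -/
structure IsHaiman (q t : K) (H : Par → Sy K) : Prop where
  tri1 : ∀ μ, plq q (H μ) ∈ SpD K (card μ) μ.1
  tri2 : ∀ μ, plq t (H μ) ∈ SpD K (card μ) (cnj μ)
  norm : ∀ μ, hall (H μ) (hh K (card μ)) = 1

/-- `E_m`: coefficients of `Exp[-z (1-q) X]` -/
def EE (q : K) (m : ℕ) : Sy K := hc (fun j => -(C (1 - q ^ (j + 1)) * X j : Sy K)) m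

/-- `F ↦ F[X + (1 - t) w]` -/
def alA (t : K) : Sy K →ₐ[K] Polynomial (Sy K) :=
  aeval (fun j => Polynomial.C (X j) + Polynomial.C (C (1 - t ^ (j + 1))) * Polynomial.X ^ (j + 1))

/-- the operator `G ↦ constant term of Exp[-z (1-q) X] G[X + (1-t)/z]` -/
def Aop (q t : K) : Module.End K (Sy K) := pairS (fun m => EE q m) ∘ₗ (alA t).toLinearMap

/-- product of complete functions with integer indices -/
def hp (K : Type*) [Field K] [CharZero K] (N : ℕ) (r : Fin N → ℤ) : Sy K := ∏ i, hz K (r i)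

end

end

end TH
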