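import Pool.Agent.Helper86.TH.Stmts
import Pool.Agent.Helper86.TH.Basic4

/-! # The final statement and its reduction to the rows -/

set_option linter.unusedSectionVars false

namespace TH

open MvPolynomial Finset

noncomputable section

variable {K : Type*} [Field K] [CharZero K]

/-- `Theta_{e_k} F`: `Pi (e_k[X/M] Pi^{-1} F)` on the part of positive degree of `F`, and zero on the
constants, for `k >= 1`; the identity for `k = 0`.  `P` and `P'` are the operator `Pi` and its
inverse. -/
def Theta (q t : K) (P P' : Module.End K (Sy K)) (k : ℕ) (F : Sy K) : Sy K :=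
  if k = 0 then F else P (est q t k * P' (F - C (constantCoeff F)))

/-- For `m = g a`, `n = g b` with `g = gcd (m, n)`:
`sum_lambda c_lambda Q_{lambda_1 a, lambda_1 b} Q_{lambda_2 a, lambda_2 b} ... (1)`, the sum over the
partitions `lambda` of `g` -/
def emn (Q : ℕ → ℕ → Module.End K (Sy K)) (c : (g : ℕ) → Nat.Partition g → K) (m n : ℕ) : Sy K :=
  ∑ l : Nat.Partition (Nat.gcd m n), c _ l •
    (((l.parts.sort (· ≥ ·)).map
      (fun i => Q (i * (m / Nat.gcd m n)) (i * (n / Nat.gcd m n)))).prod : Module.End K (Sy K)) 1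

/-- the expansion `e_g = sum_lambda c_lambda (qt/(qt-1))^{l(lambda)} h_lambda[(1-qt)/(qt) X]` -/
def IsExp (q t : K) (c : (g : ℕ) → Nat.Partition g → K) : Prop :=
  ∀ g : ℕ, 0 < g → ee K g = ∑ l : Nat.Partition g,
    (c g l * (q * t / (q * t - 1)) ^ (Multiset.card l.parts)) •
      (l.parts.map (fun i => hc (fun j =>
        (C ((1 - (q * t) ^ (j + 1)) / (q * t) ^ (j + 1)) * X j : Sy K)) i)).prod

/-- all the data of the problem: the modified Macdonald polynomials `H`, the operators
`De = Delta_{e_1}`, `P = Pi`, `P' = Pi^{-1}` and the family `Q` -/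
structure Data (q t : K) (H : Par → Sy K) (De P P' : Module.End K (Sy K))
    (Q : ℕ → ℕ → Module.End K (Sy K)) : Prop where
  hai : IsHaiman q t H
  del : ∀ μ, De (H μ) = Ps q t μ 0 • H μ
  pi : ∀ μ, P (H μ) = Pim q t μ • H μ
  pi' : ∀ F, P' (P F) = F
  q10 : Q 1 0 = 1 - Mj q t 0 • De
  q01 : ∀ F, Q 0 1 F = -(ee K 1 * F)
  rc : ∀ m n : ℕ, 0 < m → 0 < n → ∃ a b c d : ℕ, a + c = m ∧ b + d = n ∧
    a * d = b * c + Nat.gcd m n ∧ Q m n = (Mj q t 0)⁻¹ • (Q c d * Q a b - Q a b * Q c d)

/-- the identity, for every coefficient family `c` -/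
def FinalStatement (K : Type*) [Field K] [CharZero K] : Prop :=
  ∀ (q t : K), AlgebraicIndependent ℚ ![q, t] →
  ∀ (H : Par → Sy K) (De P P' : Module.End K (Sy K)) (Q : ℕ → ℕ → Module.End K (Sy K)),
    Data q t H De P P' Q → ∀ (c : (g : ℕ) → Nat.Partition g → K) (m n k d : ℕ),
      0 < m → 0 < n → d ≤ min (m + k) (n + k) →
      hall (emn Q c m (k * m + n)) (hh K d * ee K (n + k - d) * schur K k (fun _ => m - 1))
        = (-1) ^ ((k + 1) * m + n) *
          hall (hh K d * ee K (m + k - d)) (Theta q t P P' k (emn Q c n m))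

theorem ee_one : ee K 1 = X 0 := by simp [ee, hc_one]

theorem hall_comm (hBF : ST_BF K) (F G : Sy K) : hall F G = hall G F :=
  (hBF _).1 F G

theorem main_red (hGN : ST_GN K) (hHAI : ST_HAI K) (hBAS : ST_BAS K) (hMB : ST_MB K)
    (hWL : ST_WL K) (hSTAR : ST_STAR K) (hED : ST_ED K) (hTH : ST_TH K) (hQD : ST_QD K)
    (hBF : ST_BF K) : FinalStatement K := by
  intro q t hqt H De P P' Q hD c m n k d hm hn hd
  have hG := hGN q t hqt
  have hE := hHAI q t H hG hD.hai
  obtain ⟨b, hb⟩ := hBAS q t H hG hE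
  have hE' : IsE q t b := by
    have : (fun μ => b μ) = H := funext hb
    rw [← this] at hE
    exact hE
  have hM := hMB q t hG b hE'
  have hM0 : Mj q t 0 ≠ 0 := hG.Mj_ne 0
  -- the operators
  have hDe : De = Del q t := by
    rw [Del_eq_dg hE' hM0]
    refine b.ext fun μ => ?_
    rw [dg_apply_basis, hb, hD.del]
  have hP : P = dg b (Pim q t) := by
    refine b.ext fun μ => ?_
    rw [dg_apply_basis, hb, hD.pi]
  have hPim : ∀ μ, Pim q t μ ≠ 0 := by
    intro μ
    rw [Pim, cprod]
    refine Finset.prod_ne_zero_iff.2 fun i _ => Finset.prod_ne_zero_iff.2 fun j _ => ?_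
    split_ifs with h
    · exact one_ne_zero
    · intro h1
      have h2 : q ^ j * t ^ i = 1 := (sub_eq_zero.mp h1).symm
      have := hG.ind j i (by exact_mod_cast h2)
      apply h
      constructor
      · exact_mod_cast this.2
      · exact_mod_cast this.1
  have hP' : P' = dg b (fun μ => (Pim q t μ)⁻¹) := by
    refine b.ext fun μ => ?_
    have h1 := hD.pi' (b μ)
    rw [hP, dg_apply_basis, map_smul] at h1
    rw [dg_apply_basis]
    nth_rewrite 2 [← h1]
    rw [smul_smul, inv_mul_cancel₀ (hPim μ), one_smul]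
  have hQF : QF q t Q := by
    refine ⟨?_, ?_, ?_⟩
    · rw [hD.q10, hDe, Del, smul_smul, mul_inv_cancel₀ hM0, one_smul, sub_sub_cancel]
    · refine LinearMap.ext fun F => ?_
      rw [hD.q01, ee_one]
      rfl
    · intro m n hm hn
      obtain ⟨a, b', c', d', h1, h2, h3, h4⟩ := hD.rc m n hm hn
      exact ⟨a, b', c', d', ⟨h1, h2, h3⟩, h4⟩
  -- the gcd
  set g := Nat.gcd m n with hg
  have hg0 : 0 < g := Nat.gcd_pos_of_pos_left _ hm
  set m' := m / g with hm'
  set n' := n / g with hn'
  have hmg : g * m' = m := Nat.mul_div_cancel' (Nat.gcd_dvd_left m n)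
  have hng : g * n' = n := Nat.mul_div_cancel' (Nat.gcd_dvd_right m n)
  have hm'0 : 0 < m' := by
    rcases Nat.eq_zero_or_pos m' with h | h
    · rw [h, mul_zero] at hmg; omega
    · exact h
  have hn'0 : 0 < n' := by
    rcases Nat.eq_zero_or_pos n' with h | h
    · rw [h, mul_zero] at hng; omega
    · exact h
  have hcop : Nat.Coprime m' n' := Nat.coprime_div_gcd_div_gcd hg0
  -- the pairs
  have hpos : ∀ (l : Nat.Partition g), ∀ i ∈ l.parts.sort (· ≥ ·), 0 < i := by
    intro l i hi
    exact l.parts_pos ((Multiset.mem_sort _).1 hi)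
  have hsum : ∀ (l : Nat.Partition g), (l.parts.sort (· ≥ ·)).sum = g := by
    intro l
    rw [← Multiset.sum_coe, Multiset.sort_eq, l.parts_sum]
  have hex : ∀ l : Nat.Partition g, ∃ p ∈ WP q t m n,
      (∀ k : ℕ, p.1 (k : ℤ) = ((l.parts.sort (· ≥ ·)).map
        (fun i => Q (i * m') (i * (n' + k * m')))).prod) ∧
      p.2 = (-1 : K) ^ m • ((l.parts.sort (· ≥ ·)).map (fun i => Q (i * n') (i * m'))).prod := by
    intro l
    obtain ⟨p, hp, h1, h2⟩ := hWL q t hG b hM Q hQF m' n' hm'0 hn'0 hcop
      (l.parts.sort (· ≥ ·)) (hpos l)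
    rw [hsum l, hmg, hng] at hp
    rw [hsum l, hmg] at h2
    exact ⟨p, hp, h1, h2⟩
  choose p hp hp1 hp2 using hex
  set PP : (ℤ → Module.End K (Sy K)) × Module.End K (Sy K) := ∑ l : Nat.Partition g, c g l • p l
    with hPP
  have hPPmem : PP ∈ WP q t m n :=
    Submodule.sum_mem _ (fun l _ => Submodule.smul_mem _ _ (hp l))
  -- left side
  have hgk : Nat.gcd m (k * m + n) = g := by
    rw [add_comm, Nat.gcd_add_mul_right_right]
  have hL : emn Q c m (k * m + n) = PP.1 (k : ℤ) 1 := by
    have h1 : emn Q c m (k * m + n) = ∑ l : Nat.Partition g, c g l •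
      (((l.parts.sort (· ≥ ·)).map
        (fun i => Q (i * m') (i * (n' + k * m')))).prod : Module.End K (Sy K)) 1 := by
      unfold emn
      rw [hgk]
      have h2 : (k * m + n) / g = n' + k * m' := by
        rw [← hmg, ← hng, show k * (g * m') + g * n' = g * (n' + k * m') by ring,
          Nat.mul_div_cancel_left _ hg0]
      rw [h2]
    rw [h1, hPP, Prod.fst_sum, Finset.sum_apply, LinearMap.sum_apply]
    refine Finset.sum_congr rfl fun l _ => ?_
    rw [Prod.smul_fst, Pi.smul_apply, LinearMap.smul_apply, hp1 l k]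
  -- right side
  have hgn : Nat.gcd n m = g := Nat.gcd_comm n m
  have hR : PP.2 1 = (-1 : K) ^ m • emn Q c n m := by
    have h1 : emn Q c n m = ∑ l : Nat.Partition g, c g l •
      (((l.parts.sort (· ≥ ·)).map
        (fun i => Q (i * n') (i * m'))).prod : Module.End K (Sy K)) 1 := by
      unfold emn
      rw [hgn]
    rw [h1, hPP, Prod.snd_sum, LinearMap.sum_apply, Finset.smul_sum]
    refine Finset.sum_congr rfl fun l _ => ?_
    rw [Prod.smul_snd, LinearMap.smul_apply, hp2 l, LinearMap.smul_apply, smul_comm]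
  -- homogeneity
  have hWH : WH m (emn Q c n m) := by
    unfold emn
    rw [hgn]
    refine WH_sum' fun l _ => WH_smul' _ ?_
    have h1 : ∀ L : List ℕ, (∀ i ∈ L, 0 < i) →
        WH (L.sum * m') (((L.map (fun i => Q (i * n') (i * m'))).prod : Module.End K (Sy K)) 1) := by
      intro L
      induction L with
      | nil =>
        intro _
        simp only [List.sum_nil, zero_mul, List.map_nil, List.prod_nil, Module.End.one_apply]
        exact isWeightedHomogeneous_one _ _
      | cons a L ih =>
        intro hL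
        rw [List.map_cons, List.prod_cons, Module.End.mul_apply, List.sum_cons]
        have h2 := ih (fun i hi => hL i (List.mem_cons_of_mem _ hi))
        have ha := hL a List.mem_cons_self
        have h3 := hQD q t Q hQF (a * n') (a * m') _ _ (Nat.mul_pos ha hn'0)
          (Nat.mul_pos ha hm'0) h2
        rw [show (a + L.sum) * m' = L.sum * m' + a * m' by ring]
        exact h3
    have h2 := h1 _ (hpos l)
    rw [hsum l, hmg] at h2
    exact h2
  -- the star identity
  have hdk : d ≤ n + k := le_trans hd (min_le_right _ _)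
  have hdm : d ≤ m + k := le_trans hd (min_le_left _ _)
  have hst := hSTAR q t hG b hM m n PP k d hm hPPmem hdk
  rw [← hL, hR] at hst
  -- Theta
  have hTh : Theta q t P P' k (emn Q c n m)
      = dg b (Pim q t) (est q t k * dg b (fun μ => (Pim q t μ)⁻¹) (emn Q c n m)) := by
    rw [Theta]
    split_ifs with hk
    · subst hk
      rw [est_zero, one_mul]
      have : dg b (Pim q t) * dg b (fun μ => (Pim q t μ)⁻¹) = 1 := by
        rw [dg_mul]
        have h1 : (fun μ => Pim q t μ * (Pim q t μ)⁻¹) = fun _ => (1 : K) := by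
          funext μ
          rw [mul_inv_cancel₀ (hPim μ)]
        rw [h1, dg_one]
      have h2 := congrArg (fun f : Module.End K (Sy K) => f (emn Q c n m)) this
      simp only [Module.End.mul_apply, Module.End.one_apply] at h2
      exact h2.symm
    · have h0 : constantCoeff (emn Q c n m) = 0 := by
        rw [constantCoeff_eq]
        by_contra h
        have := hWH h
        simp at this
        omega
      rw [h0, map_zero, sub_zero, hP, hP']
  rw [hTh, hall_comm hBF (hh K d * ee K (m + k - d)), hTH q t hG b hM k m d _ hm hWH hdm]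
  have hs : ((-1 : K) ^ (n + k * m)) * (-1) ^ (n + k * m) = 1 := by
    rw [← mul_pow]; simp
  have hfin : hall (emn Q c m (k * m + n)) (hh K d * ee K (n + k - d) * schur K k (fun _ => m - 1))
      = (-1) ^ (n + k * m) * (if d ≤ m then
          ep 0 (En q t b (m - d) (Hn q t b k ((-1 : K) ^ m • emn Q c n m))) else 0) := by
    rw [← hst, ← mul_assoc, hs, one_mul]
  rw [hfin]
  split_ifs with hdm'
  · have hHn : WH m (Hn q t b k (emn Q c n m)) := hE'.dg_WH _ hWH
    rw [hED q t hG b hM m d _ hHn hdm', map_smul, map_smul, map_smul, smul_eq_mul, ← mul_assoc,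
      ← pow_add]
    congr 2
    ring
  · simp

end

end TH
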