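import Pool.Agent.Helper86.TH.Basic3

/-! # Statements of the rows of the project TH (MP_1b3f64_co)

Proofs: `/team-store/th_blueprint.md`. -/

namespace TH

open MvPolynomial Finset

noncomputable section

variable (K : Type*) [Field K] [CharZero K]

/-! ## Block A: relations between the vertex operators -/

def ST_DE : Prop := ∀ (q t : K) (k : ℤ) (a : ℕ),
  Dk q t k * mu (eh K a) = ∑ j ∈ range (a + 1), om q t j • (mu (eh K (a - j)) * Dk q t (k + j))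

def ST_DX : Prop := ∀ (q t : K) (k : ℤ),
  Dk q t k * mu (X 0) = mu (X 0) * Dk q t k + Mj q t 0 • Dk q t (k + 1)

def ST_PD : Prop := ∀ (q t : K) (k : ℤ), (pd : Module.End K (Sy K)) * Dk q t k
  = Dk q t k * pd - Dk q t (k - 1)

def ST_DT : Prop := ∀ (q t : K), (∀ j, Mj q t j ≠ 0) → ∀ (k : ℤ) (j : ℕ),
  Dk q t k * mu (est q t (j + 1))
    = mu (est q t (j + 1)) * Dk q t k + mu (est q t j) * Dk q t (k + 1)

def ST_HD : Prop := ∀ (q t : K), (∀ j, Mj q t j ≠ 0) → ∀ (k : ℤ) (j : ℕ),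
  mu (hst q t (j + 1)) * Dk q t k
    = Dk q t k * mu (hst q t (j + 1)) - Dk q t (k + 1) * mu (hst q t j)

def ST_EP1 : Prop := ∀ (q t u : K) (F : Sy K),
  ep u (Dk q t 1 F) = u * ep u (Dk q t 0 F) - ep u F

def ST_EP0 : Prop := ∀ (q t : K) (F : Sy K),
  ep 0 (Dk q t 0 F) = ep 0 F - Mj q t 0 * ep 0 (pd F)

def ST_EB : Prop := ∀ (q t : K), Mj q t 0 ≠ 0 → ∀ F : Sy K,
  ep 0 (Bn q t 1 F) = ep 0 F ∧ ep 0 (Bn q t 2 F) = ep 0 (Dk q t 0 F)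

def ST_U : Prop := ∀ (q t : K), Mj q t 0 ≠ 0 → ∀ (u : K) (f : Sy K →ₗ[K] K),
  (∀ F, f (X 0 * F) = (1 - u) * f F) → (∀ F, f (Dk q t 1 F) = u * f (Dk q t 0 F) - f F) →
  ∀ F, f F = f 1 * ep u F

/-- `bf w` is symmetric, multiplication by `X j` is adjoint to `w j * d/dX_j`, nondegenerate,
and homogeneous components of different degrees are orthogonal -/
def ST_BF : Prop := ∀ (w : ℕ → K),
  (∀ F G : Sy K, bf w F G = bf w G F) ∧
  (∀ (j : ℕ) (F G : Sy K), bf w (X j * F) G = w j * bf w F (pderiv j G)) ∧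
  ((∀ j, w j ≠ 0) → ∀ F : Sy K, (∀ G, bf w F G = 0) → F = 0) ∧
  (∀ (m n : ℕ) (F G : Sy K), m ≠ n → WH m F → WH n G → bf w F G = 0)

/-- the star form makes `D_0` self adjoint -/
def ST_SA : Prop := ∀ (q t : K) (F G : Sy K),
  bf (fun j => (-1) ^ j * ((j : K) + 1) * Mj q t j) (Dk q t 0 F) G
    = bf (fun j => (-1) ^ j * ((j : K) + 1) * Mj q t j) F (Dk q t 0 G)

def ST_DEG : Prop := ∀ (q t : K) (n : ℕ) (F : Sy K), WH n F →
  (∀ k : ℤ, 0 ≤ k + n → WH (k + n).toNat (Dk q t k F)) ∧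
  (∀ k : ℤ, k + n < 0 → Dk q t k F = 0) ∧
  (∀ b, WH (n + 1) (Bn q t b F)) ∧ WH (n - 1) (pd F) ∧ (n = 0 → pd F = 0)

/-! ## Block P: partitions and genericity -/

def ST_GN : Prop := ∀ (q t : K), AlgebraicIndependent ℚ ![q, t] → Gn q t

def ST_BAS : Prop := ∀ (q t : K) (H : Par → Sy K), Gn q t → IsE q t H →
  ∃ b : Module.Basis Par K (Sy K), ∀ μ, b μ = H μ

/-! ## Block PF: partial fractions -/

def ST_PFR : Prop := ∀ (t : K) (N : ℕ) (x : ℕ → K),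
  (∀ i, i < N → x i ≠ 0) → (∀ i j, i < N → j < N → x i = x j → i = j) → ∀ w : K,
  (∀ i, i < N → 1 - x i * w ≠ 0) →
  ∏ i ∈ range N, (1 - t * x i * w) / (1 - x i * w)
    = t ^ N + ∑ i ∈ range N, AA t N x i / (1 - x i * w)

def ST_PF0 : Prop := ∀ (t : K) (N : ℕ) (x : ℕ → K),
  (∀ i, i < N → x i ≠ 0) → (∀ i j, i < N → j < N → x i = x j → i = j) → ∀ n : ℕ,
  hc (fun j => (1 - t ^ (j + 1)) * ∑ i ∈ range N, x i ^ (j + 1)) n
    = (if n = 0 then t ^ N else 0) + ∑ i ∈ range N, AA t N x i * x i ^ n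

/-- the partial fraction identity for the interpolation formula -/
def ST_PF1 : Prop := ∀ (q t : K), Gn q t → ∀ (μ : Par) (N : ℕ), card μ ≤ N → 
  (∀ n : ℕ, hc (fun j => -(pt q t μ j)) n
    = (if n = 0 then 1 - Mj q t 0 * Ps q t μ 0 else 0) - (if n = 1 then 1 else 0)
      + ∑ i ∈ range N, rho q t N μ i * (t⁻¹ * (zc q t μ i)⁻¹) ^ n) ∧
  (∀ i, i < N → i ∉ rms μ → rho q t N μ i = 0)

def ST_RR : Prop := ∀ (q t : K), Gn q t → ∀ (μ : Par) (N : ℕ), card μ < N →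
  (∀ i, i < N → i ∉ ads μ → rr q t N μ i = 0) ∧
  ∑ i ∈ ads μ, rr q t N μ i = 1 ∧
  ∀ r : ℕ, ∑ i ∈ ads μ, rr q t N μ i * zc q t μ i ^ (r + 1)
    = hc (fun j => 1 - Mj q t j * Ps q t μ j) r

/-! ## Block B: interpolation, Pieri rule -/

def ST_INT : Prop := ∀ (q t : K), Gn q t → ∀ (μ : Par) (N : ℕ), card μ ≤ N → ∀ F : Sy K,
  ev (pt q t μ) (Dk q t 0 F) + Mj q t 0 * ev (pt q t μ) (pd F)
    = (1 - Mj q t 0 * Ps q t μ 0) * ev (pt q t μ) F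
      + ∑ i ∈ rms μ, rho q t N μ i * ev (pt q t (dn μ i)) F

def ST_TI : Prop := ∀ (q t : K), Gn q t → ∀ b : Module.Basis Par K (Sy K), IsE q t b →
  ∀ μ, ∃ I : Sy K, Dk q t 0 I + Mj q t 0 • pd I = (1 - Mj q t 0 * Ps q t μ 0) • I ∧
    ∀ ν, b.repr (I - b μ) ν ≠ 0 → card ν < card μ

def ST_DN1 : Prop := ∀ (q t : K), Gn q t → ∀ F : Sy K, (∀ μ, ev (pt q t μ) F = 0) →
  ∀ (N : ℕ) (w : ℕ → K),
    ev (fun k => 1 - (1 - t⁻¹ ^ (k + 1)) *
      ∑ i ∈ range N, (t⁻¹ ^ i) ^ (k + 1) * (1 - w i ^ (k + 1))) F = 0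

def ST_DN2 : Prop := ∀ (q t : K), Gn q t → ∀ F : Sy K,
  (∀ (N : ℕ) (w : ℕ → K),
    ev (fun k => 1 - (1 - t⁻¹ ^ (k + 1)) *
      ∑ i ∈ range N, (t⁻¹ ^ i) ^ (k + 1) * (1 - w i ^ (k + 1))) F = 0) → F = 0

def ST_II : Prop := ∀ (q t : K), Gn q t → ∀ b : Module.Basis Par K (Sy K), IsE q t b →
  ∃ I : Par → Sy K,
    (∀ μ, Dk q t 0 (I μ) + Mj q t 0 • pd (I μ) = (1 - Mj q t 0 * Ps q t μ 0) • I μ) ∧
    (∀ μ ν, b.repr (I μ - b μ) ν ≠ 0 → card ν < card μ) ∧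
    (∀ μ ν, ev (pt q t ν) (I μ) ≠ 0 → μ ≤ ν) ∧
    (∀ μ, ev (pt q t μ) (I μ) ≠ 0)

/-- Pieri support and coefficients, up to normalisation -/
def ST_P1 : Prop := ∀ (q t : K), Gn q t → ∀ b : Module.Basis Par K (Sy K), IsE q t b →
  ∃ β : Par → K, (∀ μ, β μ ≠ 0) ∧ β P0 = 1 ∧ ∀ (μ : Par) (N : ℕ), card μ < N →
    X 0 * b μ = ∑ i ∈ ads μ,
      (-(rho q t N (up μ i) i) / (q * t * zc q t μ i ^ 2) * (β μ / β (up μ i))) • b (up μ i)

/-- the ratio of the Pieri coefficients: identity, nonvanishing, independence of `N`, diamond -/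
def ST_KA : Prop := ∀ (q t : K), Gn q t → ∀ (μ : Par) (N i : ℕ), card μ < N → Adb μ i →
  rr q t N μ i = kap q t N μ i * (-(rho q t N (up μ i) i) / (q * t * zc q t μ i ^ 2)) ∧
  kap q t N μ i ≠ 0

def ST_KB : Prop := ∀ (q t : K), Gn q t → ∀ (μ : Par) (N N' i : ℕ), card μ < N → card μ < N' →
  Adb μ i → kap q t N μ i = kap q t N' μ i

def ST_KD : Prop := ∀ (q t : K), Gn q t → ∀ (μ : Par) (N i j : ℕ), card μ + 1 < N → i ≠ j →
  Adb μ i → Adb μ j → Adb (up μ i) j → Adb (up μ j) i →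
  kap q t N μ i * kap q t N (up μ i) j = kap q t N μ j * kap q t N (up μ j) i

def ST_PATH : Prop := ∀ κ : Par → ℕ → K,
  (∀ (μ : Par) (i j : ℕ), i ≠ j → Adb μ i → Adb μ j → Adb (up μ i) j → Adb (up μ j) i →
    κ μ i * κ (up μ i) j = κ μ j * κ (up μ j) i) →
  ∃ a : Par → K, a P0 = 1 ∧ ∀ (μ : Par) (i : ℕ), Adb μ i → a (up μ i) = κ μ i * a μ

def ST_MB : Prop := ∀ (q t : K), Gn q t → ∀ b : Module.Basis Par K (Sy K), IsE q t b → MB q t b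

/-! ## Block C: consequences of the Pieri rule -/

def ST_BM : Prop := ∀ (q t : K), Gn q t → ∀ b : Module.Basis Par K (Sy K), IsE q t b →
  ∀ (μ : Par) (d : ℕ → K), X 0 * b μ = ∑ i ∈ ads μ, d i • b (up μ i) →
    ∀ s, Bn q t s (b μ) = ∑ i ∈ ads μ, (d i * zc q t μ i ^ s) • b (up μ i)

def ST_CO : Prop := ∀ (q t : K), Gn q t → ∀ b : Module.Basis Par K (Sy K), MB q t b →
  ∀ (a c : ℕ → K) (k s : ℕ),
    dg b (fun μ => hc (fun j => a j * Ps q t μ j + c j) k) * Bn q t s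
      = ∑ i ∈ range (k + 1), hc a i •
        (Bn q t (s + i) * dg b (fun μ => hc (fun j => a j * Ps q t μ j + c j) (k - i)))

/-- the three special cases that are used later -/
def ST_CS : Prop := ∀ (q t : K), Gn q t → ∀ b : Module.Basis Par K (Sy K), MB q t b →
  (∀ k s : ℕ, Nn q t b (k + 1) * Bn q t s
    = Bn q t s * Nn q t b (k + 1) - Bn q t (s + 1) * Nn q t b k) ∧
  (∀ k s : ℕ, Hn q t b (k + 1) * Bn q t s
    = Bn q t s * Hn q t b (k + 1) + Hn q t b k * Bn q t (s + 1)) ∧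
  (∀ k : ℕ, ∑ p ∈ antidiagonal k, Nn q t b p.1 * Hn q t b p.2 = if k = 0 then 1 else 0) ∧
  (∀ k s : ℕ, En q t b (k + 1) * Bn q t s
    = Bn q t s * En q t b (k + 1) + Bn q t (s + 1) * En q t b k) ∧
  (Nn q t b 0 = 1 ∧ Hn q t b 0 = 1 ∧ En q t b 0 = 1)

def ST_PP : Prop := ∀ (q t : K), Gn q t → ∀ b : Module.Basis Par K (Sy K), MB q t b →
  ∀ (s : ℕ) (F : Sy K), ep 0 (Bn q t (s + 1) F)
    = ep 0 (dg b (fun μ => hc (fun j => 1 - Mj q t j * Ps q t μ j) s) F)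

def ST_F2 : Prop := ∀ (q t : K), Gn q t → ∀ b : Module.Basis Par K (Sy K), MB q t b →
  ∀ (u : K) (F : Sy K), ep u F = ep 0 (dg b (Nu q t u) F)

def ST_NU : Prop := ∀ (q t : K) (μ : Par),
  (∀ v : K, Nu q t v μ = ∑ l ∈ range (card μ + 1), v ^ l * hc (fun j => -(Ps q t μ j)) l) ∧
  (∀ l, card μ < l → hc (fun j => -(Ps q t μ j)) l = 0)

/-! ## Block D: the Theta operators -/

def ST_G1 : Prop := ∀ (q t : K), Gn q t → ∀ b : Module.Basis Par K (Sy K), MB q t b →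
  ∀ k, Gk q t b k * (mu (X 0) + Dk q t 0) = (mu (X 0) + Dk q t 0) * Gk q t b k

def ST_RIG : Prop := ∀ (q t : K), Gn q t → ∀ b : Module.Basis Par K (Sy K), MB q t b →
  ∀ C : Module.End K (Sy K), C * (mu (X 0) + Dk q t 0) = (mu (X 0) + Dk q t 0) * C →
    (∀ μ ν, b.repr (C (b μ)) ν ≠ 0 → card μ < card ν) → C = 0

def ST_GG : Prop := ∀ (q t : K), Gn q t → ∀ b : Module.Basis Par K (Sy K), MB q t b →
  ∀ k l, Gk q t b k * Gk q t b l = Gk q t b l * Gk q t b k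

def ST_Y1 : Prop := ∀ (q t : K), Gn q t → ∀ b : Module.Basis Par K (Sy K), MB q t b →
  (∀ j, Yy q t b 0 j = if j = 0 then 1 else 0) ∧
  (∀ i, Yy q t b i 0 = mu (est q t i)) ∧
  (∀ i m, Dk q t 0 * Yy q t b (i + 1) m - Yy q t b (i + 1) m * Dk q t 0
    = Yy q t b i m * Dk q t 1 + (if m = 0 then 0 else Yy q t b i (m - 1) * Bn q t 2)) ∧
  (∀ i m, Yy q t b i (m + 1) * mu (X 0) + Yy q t b i m * Dk q t 1
    = mu (X 0) * Yy q t b i (m + 1) + Dk q t 1 * Yy q t b i m)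

def ST_Y2 : Prop := ∀ (q t : K), Gn q t → ∀ b : Module.Basis Par K (Sy K), MB q t b →
  ∀ i m, i < m → Yy q t b i m = 0

def ST_W1 : Prop := ∀ (q t : K), Gn q t → ∀ b : Module.Basis Par K (Sy K), MB q t b →
  ∀ (u : K) (i j : ℕ) (F : Sy K),
    ∑ p ∈ antidiagonal j, ep u (est q t p.1) * ep u (Yy q t b i p.2 F)
      = ∑ p ∈ antidiagonal i, ep u (est q t p.1) * ep u (Yy q t b j p.2 F)

def ST_W2 : Prop := ∀ (q t : K), Gn q t → ∀ b : Module.Basis Par K (Sy K), MB q t b →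
  ∀ (u : K) (i j : ℕ) (F : Sy K), j ≤ i →
    ep u (Yy q t b i j F) = ep u (est q t (i - j)) * ep u (Yy q t b j j F)

def ST_W3 : Prop := ∀ (q t : K), Gn q t → ∀ b : Module.Basis Par K (Sy K), MB q t b →
  ∀ (u : K) (j : ℕ) (F : Sy K),
    ep u (Yy q t b (j + 1) (j + 1) (X 0 * F))
      = (1 - u) * ep u (Yy q t b (j + 1) (j + 1) F) + u * ep u (Yy q t b j j (Dk q t 1 F)) ∧
    ep u (Yy q t b (j + 1) (j + 1) (Dk q t 1 F))
      = -ep u (Yy q t b (j + 1) (j + 1) F) + u * ep u (Yy q t b (j + 1) (j + 1) (Dk q t 0 F))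
        + u * ep u (Yy q t b j j (Bn q t 2 F))

def ST_W4 : Prop := ∀ (q t : K), Gn q t → ∀ b : Module.Basis Par K (Sy K), MB q t b →
  ∀ (u : K) (i : ℕ) (F : Sy K), ep u (Yy q t b i i F)
    = ∑ p ∈ antidiagonal i, ep u (Yy q t b p.1 p.1 1) * ((-u) ^ p.2 * ep u (Hn q t b p.2 F))

def ST_W5 : Prop := ∀ (q t : K), Gn q t → ∀ b : Module.Basis Par K (Sy K), MB q t b →
  ∀ (v : K) (k : ℕ), dg b (Nu q t v) * mu (est q t k)
    = ∑ j ∈ range (k + 1), v ^ j • (Yy q t b k j * dg b (Nu q t v))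

def ST_W6 : Prop := ∀ (q t : K), Gn q t → ∀ b : Module.Basis Par K (Sy K), MB q t b →
  ∀ (u : K) (i : ℕ),
    ∑ p ∈ antidiagonal i, ep u (est q t p.1) * ep u (Yy q t b p.2 p.2 1) = if i = 0 then 1 else 0

def ST_W7 : Prop := ∀ (q t : K), Gn q t → ∀ b : Module.Basis Par K (Sy K), MB q t b →
  ∀ (u : K) (k m : ℕ) (F : Sy K), 0 < m → WH m F →
    ep u (dg b (Pim q t) (est q t k * dg b (fun μ => (Pim q t μ)⁻¹) F))
      = (-u) ^ k * ep u (Hn q t b k F)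

/-- evaluation as a Hall scalar product -/
def ST_CAU : Prop := ∀ (c : ℕ → K) (m : ℕ) (F : Sy K), WH m F →
  hall F (hc (fun j => (C (c j) * X j : Sy K)) m) = ev c F

def ST_EPU : Prop := ∀ (u : K) (m : ℕ) (F : Sy K), WH m F →
  ep u F = ∑ d ∈ range (m + 1), (-u) ^ (m - d) * hall F (hh K d * ee K (m - d))

def ST_TH : Prop := ∀ (q t : K), Gn q t → ∀ b : Module.Basis Par K (Sy K), MB q t b →
  ∀ (k m d : ℕ) (F : Sy K), 0 < m → WH m F → d ≤ m + k →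
    hall (dg b (Pim q t) (est q t k * dg b (fun μ => (Pim q t μ)⁻¹) F))
        (hh K d * ee K (m + k - d))
      = if d ≤ m then hall (Hn q t b k F) (hh K d * ee K (m - d)) else 0

def ST_ED : Prop := ∀ (q t : K), Gn q t → ∀ b : Module.Basis Par K (Sy K), MB q t b →
  ∀ (m d : ℕ) (F : Sy K), WH m F → d ≤ m →
    hall F (hh K d * ee K (m - d)) = ep 0 (En q t b (m - d) F)

/-! ## Block E: words -/

def ST_TC : Prop := ∀ (q t : K) (m : ℕ) (β : Fin m → ℤ),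
  tp q t m β = if 0 ≤ ∑ i, β i then
      ∑ α ∈ Finset.piAntidiag (univ : Finset (Fin m)) (∑ i, β i).toNat,
        ct q t m (fun i => β i - (α i : ℤ))
    else 0

def ST_CT0 : Prop := ∀ (q t : K) (m : ℕ) (β : Fin m → ℤ), ∑ i, β i ≠ 0 → ct q t m β = 0

def ST_VR : Prop := ∀ (q t : K) (m : ℕ) (L : Fin (m + 1) → ℤ),
  Vm q t (m + 1) L = if 0 ≤ L 0 then
      ∑ y ∈ range ((L 0).toNat + 1), ∑ j ∈ Finset.piAntidiag (univ : Finset (Fin m)) y,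
        (∏ i, om q t (j i)) •
          (eh K ((L 0).toNat - y) * Vm q t m (fun i => L i.succ + (j i : ℤ)))
    else 0

def ST_SG : Prop := ∀ (a : ℕ) (F G : Sy K), hall (eh K a * F) G = hall F ((sgA G).coeff a)

def ST_EZ : Prop := ∀ (q t : K) (m : ℕ) (L : Fin m → ℤ) (G : Sy K),
  hall (Vm q t m L) G = ctL q t m L (evz K m G)

def ST_EH : Prop := ∀ (m d : ℕ),
  evz K m (hh K d) = (-1) ^ d * ∑ S ∈ powersetCard d (univ : Finset (Fin m)), ∏ i ∈ S, X i ∧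
  evz K m (ee K d)
    = (-1) ^ d * ∑ α ∈ Finset.piAntidiag (univ : Finset (Fin m)) d, ∏ i, X i ^ (α i)

def ST_ES : Prop := ∀ (m k : ℕ), 0 < m →
  evz K m (schur K k (fun _ => m - 1))
    = (-1) ^ (k * (m - 1)) *
      ∑ γ ∈ Finset.piAntidiag (univ : Finset (Fin m)) k, ∏ i, X i ^ (k - γ i)

def ST_DS : Prop := ∀ (q t : K) (m : ℕ) (b : Fin m → ℕ) (k d : ℕ), 0 < m → d ≤ ∑ i, b i + k →
  (-1) ^ (∑ i, b i + k * m) *
      hall (Vm q t m (fun i => (b i : ℤ) + k))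
        (hh K d * ee K (∑ i, b i + k - d) * schur K k (fun _ => m - 1))
    = if d ≤ m then
        ∑ R ∈ powersetCard (m - d) (univ : Finset (Fin m)),
          ∑ γ ∈ Finset.piAntidiag (univ : Finset (Fin m)) k,
            tp q t m (fun i => (b i : ℤ) - 1 + (if i ∈ R then 1 else 0) + (γ i : ℤ))
      else 0

def ST_BT : Prop := ∀ (q t : K), Gn q t → ∀ b : Module.Basis Par K (Sy K), MB q t b →
  ∀ (m : ℕ) (a : Fin m → ℕ), ep 0 (Bm q t m a 1) = tp q t m (fun i => (a i : ℤ) - 1)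

def ST_BI : Prop := ∀ (q t : K), Gn q t → ∀ b : Module.Basis Par K (Sy K), MB q t b →
  ∀ (m : ℕ) (a : Fin m → ℕ) (r k : ℕ), (En q t b r * Hn q t b k * Bm q t m a) 1
    = ∑ R ∈ powersetCard r (univ : Finset (Fin m)),
        ∑ γ ∈ Finset.piAntidiag (univ : Finset (Fin m)) k,
          Bm q t m (fun i => a i + (if i ∈ R then 1 else 0) + γ i) 1

def ST_STAR : Prop := ∀ (q t : K), Gn q t → ∀ b : Module.Basis Par K (Sy K), MB q t b →
  ∀ (m n : ℕ) (p : (ℤ → Module.End K (Sy K)) × Module.End K (Sy K)) (k d : ℕ), 0 < m →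
    p ∈ WP q t m n → d ≤ n + k →
    (-1) ^ (n + k * m) * hall (p.1 k 1) (hh K d * ee K (n + k - d) * schur K k (fun _ => m - 1))
      = if d ≤ m then ep 0 (En q t b (m - d) (Hn q t b k (p.2 1))) else 0

/-! ## Block F: the operators `Q_{m,n}` -/

def ST_S : Prop := ∀ (q t : K), Gn q t → ∀ (m : ℕ) (f : ℤ → Module.End K (Sy K)) (k : ℤ),
  f ∈ WF q t m → f k = 0 → f (k + 1) = 0

def ST_WM : Prop := ∀ (q t : K), Mj q t 0 ≠ 0 →
  (∀ (m n : ℕ) (f g : ℤ → Module.End K (Sy K)), f ∈ WF q t m → g ∈ WF q t n →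
    (fun k => f k * g k) ∈ WF q t (m + n)) ∧
  (∀ (m : ℕ) (f : ℤ → Module.End K (Sy K)), f ∈ WF q t m →
    (fun k => cm q t (f k) (mu (X 0))) ∈ WF q t m)

def ST_PS : Prop := ∀ (q t : K), Gn q t → ∀ b : Module.Basis Par K (Sy K), MB q t b →
  ∀ μ ν, b.repr (pd (b μ)) ν ≠ 0 → ∃ i ∈ rms μ, ν = dn μ i

def ST_CB : Prop := ∀ (q t : K), Gn q t → ∀ b : Module.Basis Par K (Sy K), MB q t b →
  (∃ ψ : ℕ → Par → K, ∀ a s : ℕ,
    Cc q t a * Bn q t s - Bn q t s * Cc q t a = dg b (ψ (a + s))) ∧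
  Dk q t (-1) = Mj q t 0 • Cc q t 1

def ST_NA : Prop := ∀ (q t : K), Gn q t → ∀ b : Module.Basis Par K (Sy K), MB q t b →
  nab q t b * nabi q t b = 1 ∧ nabi q t b * nab q t b = 1 ∧
  nab q t b * Dk q t 0 = Dk q t 0 * nab q t b ∧
  ∀ s, nab q t b * Bn q t s = Bn q t (s + 1) * nab q t b

def ST_NT : Prop := ∀ m n a b c d : ℕ, 0 < m → 0 < n → Adm m n a b c d →
  (a + b < m + n ∧ c + d < m + n ∧ 0 < a ∧ 0 < d ∧ (b = 0 → a = 1) ∧ (c = 0 → d = 1)) ∧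
  (m < n → a ≤ b ∧ c < d ∧ (b = a → a = 1) ∧ Adm m (n - m) a (b - a) c (d - c)) ∧
  (n < m → b < a ∧ d ≤ c ∧ (c = d → c = 1) ∧ Adm (m - n) n (a - b) b (c - d) d) ∧
  (m = n → a = b + 1 ∧ d = c + 1)

/-- uniqueness of the splitting for the two families next to the diagonal, small cases -/
def ST_Q1 : Prop := ∀ (q t : K), Gn q t → ∀ Q : ℕ → ℕ → Module.End K (Sy K), QF q t Q →
  (∀ i : ℕ, 0 < i → Q i (i + 1) = cm q t (Q (i - 1) i) (Q 1 1)) ∧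
  (∀ j : ℕ, 0 < j → Q (j + 1) j = cm q t (Q 1 1) (Q j (j - 1))) ∧
  (∀ k : ℕ, Q 1 k = Dk q t k) ∧
  (∀ k : ℕ, Q k 1 = -(Bn q t k))

/-- the base slope -/
def ST_BA : Prop := ∀ (q t : K), Gn q t → ∀ b : Module.Basis Par K (Sy K), MB q t b →
  ∀ Q : ℕ → ℕ → Module.End K (Sy K), QF q t Q →
    ∃ (Φ : ℕ → ℤ → Module.End K (Sy K)) (ψ : ℕ → Par → K), ∀ g : ℕ, 0 < g →
      Φ g ∈ WF q t g ∧ Φ g (-1) = dg b (ψ g) ∧
      ∀ i j : ℕ, i + j + 1 = g → Φ g 0 = cm q t (Q i (i + 1)) (Q (j + 1) j)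

/-- the main induction -/
def ST_IND : Prop := ∀ (q t : K), Gn q t → ∀ b : Module.Basis Par K (Sy K), MB q t b →
  ∀ Q : ℕ → ℕ → Module.End K (Sy K), QF q t Q → IND q t Q ∧
    (∀ m n : ℕ, 0 < m → (0 < n ∨ m = 1) → ∃ f ∈ WF q t m, f 0 = Q m n ∧ f 1 = Q m (n + m)) ∧
    (∀ m n : ℕ, 0 < n → (0 < m ∨ n = 1) → nab q t b * Q m n = Q (m + n) n * nab q t b)

def ST_COM : Prop := ∀ (q t : K), Gn q t → ∀ b : Module.Basis Par K (Sy K), MB q t b →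
  ∀ Q : ℕ → ℕ → Module.End K (Sy K), QF q t Q → ∀ m n i j : ℕ, 0 < m → 0 < n → 0 < i → 0 < j →
    Nat.Coprime m n → Q (i * m) (i * n) * Q (j * m) (j * n) = Q (j * m) (j * n) * Q (i * m) (i * n)

def ST_WPM : Prop := ∀ (q t : K), Mj q t 0 ≠ 0 →
  (∀ (m n m' n' : ℕ) (p p' : (ℤ → Module.End K (Sy K)) × Module.End K (Sy K)),
    p ∈ WP q t m n → p' ∈ WP q t m' n' →
    ((fun k => p.1 k * p'.1 k, p'.2 * p.2) : (ℤ → Module.End K (Sy K)) × Module.End K (Sy K))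
      ∈ WP q t (m + m') (n + n')) ∧
  (∀ (m n : ℕ) (p : (ℤ → Module.End K (Sy K)) × Module.End K (Sy K)), p ∈ WP q t m n →
    ((fun k => cm q t (p.1 k) (mu (X 0)), Del q t * p.2 - p.2 * Del q t) :
      (ℤ → Module.End K (Sy K)) × Module.End K (Sy K)) ∈ WP q t m (n + 1))

def ST_WQ : Prop := ∀ (q t : K), Gn q t → ∀ Q : ℕ → ℕ → Module.End K (Sy K), QF q t Q →
  IND q t Q → ∀ m n : ℕ, 0 < m → 0 < n →
    ∃ p ∈ WP q t m n, (∀ k : ℕ, p.1 (k : ℤ) = Q m (n + k * m)) ∧ p.2 = (-1 : K) ^ m • Q n m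

/-- products of `Q`s of the same slope -/
def ST_WL : Prop := ∀ (q t : K), Gn q t → ∀ b : Module.Basis Par K (Sy K), MB q t b →
  ∀ Q : ℕ → ℕ → Module.End K (Sy K), QF q t Q → ∀ (m n : ℕ), 0 < m → 0 < n → Nat.Coprime m n →
    ∀ l : List ℕ, (∀ i ∈ l, 0 < i) → ∃ p ∈ WP q t (l.sum * m) (l.sum * n),
      (∀ k : ℕ, p.1 (k : ℤ) = (l.map (fun i => Q (i * m) (i * (n + k * m)))).prod) ∧
      p.2 = (-1 : K) ^ (l.sum * m) • (l.map (fun i => Q (i * n) (i * m))).prod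

def ST_QD : Prop := ∀ (q t : K) (Q : ℕ → ℕ → Module.End K (Sy K)), QF q t Q →
  ∀ (m n r : ℕ) (F : Sy K), 0 < m → 0 < n → WH r F → WH (r + n) (Q m n F)

/-! ## Block H: Haiman's characterisation -/

/-- `(D_0 F)[X (1-q)] = A (F[X (1-q)])` -/
def ST_HA : Prop := ∀ (q t : K) (F : Sy K), plq q (Dk q t 0 F) = Aop q t (plq q F)

/-- `D_0` is symmetric in `q` and `t` -/
def ST_HQ : Prop := ∀ (q t : K) (k : ℤ), Dk q t k = Dk t q k

/-- the action of `A` on a product of complete functions -/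
def ST_HP : Prop := ∀ (q t : K) (N : ℕ) (r : Fin N → ℤ) (M : ℕ), (∀ i, r i < M) →
  Aop q t (hp K N r) = ∑ m ∈ range (N * M + 1), EE q m *
    ∑ j ∈ Finset.piAntidiag (univ : Finset (Fin N)) m,
      (∏ i, (if j i = 0 then (1 : Sy K) else C (1 - t))) * hp K N (fun i => r i - (j i : ℤ))

/-- the alternating partial fraction identity -/
def ST_HV : Prop := ∀ (t : K) (N m : ℕ),
  (∑ j ∈ Finset.piAntidiag (univ : Finset (Fin N)) m,
      ∏ i, ((if j i = 0 then (1 : MvPolynomial (Fin N) K) else C (1 - t)) * X i ^ (j i))) *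
    (∑ σ : Equiv.Perm (Fin N), ((Equiv.Perm.sign σ : ℤ) : MvPolynomial (Fin N) K) *
      ∏ i, X i ^ (N - 1 - (σ i : ℕ)))
  = (if m = 0 then C (t ^ N) * ∑ σ : Equiv.Perm (Fin N),
        ((Equiv.Perm.sign σ : ℤ) : MvPolynomial (Fin N) K) * ∏ i, X i ^ (N - 1 - (σ i : ℕ))
      else 0)
    + C (1 - t) * ∑ i : Fin N, X i ^ m * ∑ σ : Equiv.Perm (Fin N),
        ((Equiv.Perm.sign σ : ℤ) : MvPolynomial (Fin N) K) * (C t ^ (σ i : ℕ) *
          ∏ l, X l ^ (N - 1 - (σ l : ℕ)))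

/-- the action of `A` on Schur functions -/
def ST_HS : Prop := ∀ (q t : K) (N : ℕ) (lam : ℕ → ℕ), q ≠ 0 →
  Aop q t (schur K N lam) = ∑ σ : Equiv.Perm (Fin N),
    (((Equiv.Perm.sign σ : ℤ) : K) *
      (t ^ N + (1 - t) * ∑ i : Fin N,
        t ^ (σ i : ℕ) * q ^ ((lam i : ℤ) - (i : ℤ) + (σ i : ℤ)))) •
      hp K N (fun i => (lam i : ℤ) - (i : ℤ) + (σ i : ℤ))

/-- a product of complete functions lies in the span of the Schur functions of the dominating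
partitions; the products which occur in `schur ν`, except for the diagonal one, are strictly
dominating -/
def ST_HH : Prop := ∀ (n : ℕ) (ν : Par), card ν = n → ∀ σ : Equiv.Perm (Fin n), σ ≠ 1 →
  ∃ S : Finset Par, (∀ κ ∈ S, card κ = n ∧ Dom ν.1 κ.1 ∧ κ ≠ ν) ∧
    hp K n (fun i => (ν.1 i : ℤ) - (i : ℤ) + (σ i : ℤ))
      ∈ Submodule.span K {s | ∃ κ ∈ S, s = schur K n κ.1}

def ST_DOM : Prop := ∀ μ ν : Par, card μ = card ν → Dom μ.1 ν.1 → Dom (cnj μ) (cnj ν) → μ = ν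

def ST_CNJ : Prop := ∀ μ : Par, ∃ μ' : Par, (μ'.1 : ℕ → ℕ) = cnj μ ∧ card μ' = card μ ∧
  (cnj μ' = (μ.1 : ℕ → ℕ)) ∧ ∀ q t : K, Ps q t μ' 0 = Ps t q μ 0

/-- triangularity: `D_0` acts on the space of `F` with `F[X(1-q)]` in `SpD`, and a product of the
`D_0 - c_ν` kills it -/
def ST_HT : Prop := ∀ (q t : K), Gn q t → ∀ (n : ℕ) (f : ℕ → ℕ),
  ∃ S : Finset Par, (∀ ν ∈ S, card ν = n ∧ Dom f ν.1) ∧
    ∀ F : Sy K, plq q F ∈ SpD K n f →
      (Polynomial.aeval (Dk q t 0) (∏ ν ∈ S, (Polynomial.X - Polynomial.C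
        (1 - Mj q t 0 * Ps q t ν 0)) : Polynomial K)) F = 0

def ST_HAI : Prop := ∀ (q t : K) (H : Par → Sy K), Gn q t → IsHaiman q t H → IsE q t H

end

end TH
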